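import Mathlib

set_option autoImplicit false

open Filter Topology

namespace Pool.Agent.P.MP_f55c5e_co.Ch

lemma cone_pow_pos {w : ℂ} (hw : 0 < w.im) :
    ∃ (j k : ℕ) (r s : ℝ), 0 ≤ r ∧ 0 ≤ s ∧ 1 + r * w ^ j + s * w ^ k = 0 := by
  have hw0 : w ≠ 0 := by rintro rfl; simp at hw
  have hn : 0 < ‖w‖ := norm_pos_iff.2 hw0
  have h0 : 0 < w.arg := by
    rcases (Complex.arg_nonneg_iff.2 hw.le).lt_or_eq with h | h
    · exact h
    · exact absurd (Complex.arg_eq_zero_iff.1 h.symm).2 hw.ne'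
  have hpi : w.arg < Real.pi := Complex.arg_lt_pi_iff.2 (Or.inr hw.ne')
  have hex : ∃ n : ℕ, (w ^ (n + 1)).im ≤ 0 := by
    set n := ⌈Real.pi / w.arg⌉₊ with hn'
    have h1 : Real.pi / w.arg ≤ n := Nat.le_ceil _
    have h2 : (n : ℝ) < Real.pi / w.arg + 1 :=
      Nat.ceil_lt_add_one (div_nonneg Real.pi_pos.le h0.le)
    have h3 : Real.pi ≤ n * w.arg := by rwa [div_le_iff₀ h0] at h1
    have h4 : n * w.arg < Real.pi + w.arg := by
      have := mul_lt_mul_of_pos_right h2 h0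
      rwa [add_mul, div_mul_cancel₀ _ h0.ne', one_mul] at this
    have h5 : n ≠ 0 := by
      intro h
      rw [h] at h3
      simp at h3
      linarith [Real.pi_pos]
    refine ⟨n - 1, ?_⟩
    rw [Nat.sub_add_cancel (Nat.pos_of_ne_zero h5)]
    have e : w ^ n = ((‖w‖ ^ n : ℝ) : ℂ) * Complex.exp (((n * w.arg : ℝ) : ℂ) * Complex.I) := by
      conv_lhs => rw [← Complex.norm_mul_exp_arg_mul_I w]
      rw [mul_pow, ← Complex.exp_nat_mul]
      push_cast
      ring_nf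
    rw [e, Complex.im_ofReal_mul, Complex.exp_ofReal_mul_I_im]
    refine mul_nonpos_of_nonneg_of_nonpos (by positivity) ?_
    rw [← Real.sin_sub_two_pi]
    exact Real.sin_nonpos_of_nonpos_of_neg_pi_le (by linarith) (by linarith)
  classical
  have h1 := Nat.find_spec hex
  have h2 : Nat.find hex ≠ 0 := by
    intro h
    rw [h] at h1
    simp at h1
    linarith
  obtain ⟨j, hj⟩ := Nat.exists_eq_succ_of_ne_zero h2
  have h3 : 0 < (w ^ (j + 1)).im := not_le.1 (Nat.find_min hex (by omega))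
  rw [hj] at h1
  set z := w ^ (j + 1) with hz
  have hz0 : 0 < Complex.normSq z := Complex.normSq_pos.2 (pow_ne_zero _ hw0)
  have e2 : w ^ (j.succ + 1) = z * w := pow_succ _ _
  rw [e2] at h1
  have hD : 0 < Complex.normSq z * w.im := mul_pos hz0 hw
  refine ⟨j + 1, j.succ + 1, -(z * w).im / (Complex.normSq z * w.im),
    z.im / (Complex.normSq z * w.im), div_nonneg (by linarith) hD.le, div_nonneg h3.le hD.le, ?_⟩
  rw [e2, ← hz]
  have key : -(((z * w).im : ℝ) : ℂ) * z + (z.im : ℂ) * (z * w) =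
      -((Complex.normSq z * w.im : ℝ) : ℂ) := by
    apply Complex.ext <;> simp [Complex.normSq_apply] <;> ring
  have hD' : ((Complex.normSq z * w.im : ℝ) : ℂ) ≠ 0 := by exact_mod_cast hD.ne'
  rw [Complex.ofReal_div, Complex.ofReal_div, Complex.ofReal_neg]
  field_simp
  linear_combination key

lemma cone_pow {w : ℂ} (hw : ¬ (w.im = 0 ∧ 0 ≤ w.re)) :
    ∃ (j k : ℕ) (r s : ℝ), 0 ≤ r ∧ 0 ≤ s ∧ 1 + r * w ^ j + s * w ^ k = 0 := by
  rcases lt_trichotomy w.im 0 with h | h | h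
  · obtain ⟨j, k, r, s, hr, hs, e⟩ := cone_pow_pos (w := (starRingEnd ℂ) w) (by simpa using h)
    refine ⟨j, k, r, s, hr, hs, ?_⟩
    have := congrArg (starRingEnd ℂ) e
    simpa using this
  · have h1 : w.re < 0 := not_le.1 fun h' => hw ⟨h, h'⟩
    refine ⟨1, 0, -1 / w.re, 0, div_nonneg_of_nonpos (by norm_num) h1.le, le_rfl, ?_⟩
    have : w = (w.re : ℂ) := Complex.ext (by simp) (by simp [h])
    have h2 : (w.re : ℂ) ≠ 0 := by exact_mod_cast h1.ne
    rw [pow_one, Complex.ofReal_div]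
    nth_rewrite 2 [this]
    field_simp
    simp
  · exact cone_pow_pos h

variable {K : Type} [Field K] [CharZero K]

/-- `x` is a combination of members of `Y` with nonnegative coefficients of sum `c` -/
inductive Rep (Y : Submonoid K) : ℚ → K → Prop
  | base (p : ℚ) (hp : 0 ≤ p) (y : K) (hy : y ∈ Y) : Rep Y p (p * y)
  | add {c d : ℚ} {x z : K} : Rep Y c x → Rep Y d z → Rep Y (c + d) (x + z)

variable {Y : Submonoid K}

lemma Rep.of_mem {y : K} (hy : y ∈ Y) : Rep Y 1 y := by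
  simpa using Rep.base 1 zero_le_one y hy

lemma Rep.zero : Rep Y 0 0 := by simpa using Rep.base 0 le_rfl 1 Y.one_mem

lemma Rep.mul {c d : ℚ} {x z : K} (h : Rep Y c x) (h' : Rep Y d z) : Rep Y (c * d) (x * z) := by
  induction h with
  | base p hp y hy =>
    induction h' with
    | base p' hp' y' hy' =>
      have := Rep.base (p * p') (mul_nonneg hp hp') (y * y') (Y.mul_mem hy hy')
      convert this using 1
      push_cast; ring
    | add _ _ i1 i2 => simpa [mul_add] using i1.add i2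
  | add _ _ i1 i2 => simpa [add_mul] using i1.add i2

lemma Rep.smul {d : ℚ} {z : K} (h : Rep Y d z) {p : ℚ} (hp : 0 ≤ p) : Rep Y (p * d) (p * z) := by
  simpa using (Rep.base p hp 1 Y.one_mem).mul h

lemma Rep.pow {c : ℚ} {x : K} (h : Rep Y c x) (n : ℕ) : Rep Y (c ^ n) (x ^ n) := by
  induction n with
  | zero => simpa using Rep.of_mem Y.one_mem
  | succ n ih => simpa [pow_succ] using ih.mul h

lemma Rep.sum {ι : Type} (s : Finset ι) {c : ι → ℚ} {x : ι → K} (h : ∀ i ∈ s, Rep Y (c i) (x i)) :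
    Rep Y (∑ i ∈ s, c i) (∑ i ∈ s, x i) := by
  classical
  induction s using Finset.induction_on with
  | empty => simpa using Rep.zero
  | insert a s ha ih =>
    rw [Finset.sum_insert ha, Finset.sum_insert ha]
    exact (h a (by simp)).add (ih fun i hi => h i (by simp [hi]))

/-- the additive semigroup generated by the elements `y - 1` -/
def SS (Y : Submonoid K) : AddSubmonoid K := AddSubmonoid.closure {v | v + 1 ∈ Y}

lemma Rep.clear {c : ℚ} {x : K} (h : Rep Y c x) :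
    ∃ D : ℕ, 0 < D ∧ (D : K) * x ∈ Subsemiring.closure (Y : Set K) ∧ (D : K) * (x - c) ∈ SS Y := by
  induction h with
  | base p hp y hy =>
    have e : (p.den : K) * p = (p.num.toNat : K) := by
      have h1 : ((p.num.toNat : ℤ) : K) = (p.num : K) := by
        rw [Int.toNat_of_nonneg (Rat.num_nonneg.2 hp)]
      have h2 : (p.den : ℚ) * p = p.num := Rat.den_mul_eq_num p
      have h3 := congrArg (Rat.cast : ℚ → K) h2
      push_cast at h1 h3
      rw [h3, h1]
    refine ⟨p.den, p.den_pos, ?_, ?_⟩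
    · rw [← mul_assoc, e]
      exact mul_mem (natCast_mem _ _) (Subsemiring.subset_closure hy)
    · have : (p.den : K) * (p * y - p) = p.num.toNat • (y - 1) := by
        rw [nsmul_eq_mul, ← e]; ring
      rw [this]
      exact nsmul_mem (AddSubmonoid.subset_closure (by simpa using hy)) _
  | add _ _ i1 i2 =>
    obtain ⟨D, hD, a1, a2⟩ := i1
    obtain ⟨E, hE, b1, b2⟩ := i2
    refine ⟨D * E, Nat.mul_pos hD hE, ?_, ?_⟩
    · convert add_mem (mul_mem (natCast_mem _ E) a1) (mul_mem (natCast_mem _ D) b1) using 1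
      push_cast; ring
    · convert add_mem (nsmul_mem a2 E) (nsmul_mem b2 D) using 1
      simp only [nsmul_eq_mul]
      push_cast; ring

variable [FiniteDimensional ℚ K]

lemma coord_tendsto (φ : K →ₗ[ℚ] ℚ) {x : ℕ → K}
    (hx : ∀ σ : K →ₐ[ℚ] ℂ, Tendsto (fun n => σ (x n)) atTop (𝓝 0)) :
    Tendsto (fun n => ((φ (x n) : ℚ) : ℝ)) atTop (𝓝 0) := by
  let κ := ((Algebra.traceForm ℚ K).toDual (traceForm_nondegenerate ℚ K)).symm φ
  have h1 : ∀ z, ((φ z : ℚ) : ℂ) = ∑ σ : K →ₐ[ℚ] ℂ, σ κ * σ z := by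
    intro z
    have h2 : Algebra.traceForm ℚ K κ z = φ z := LinearMap.BilinForm.apply_toDual_symm_apply _ _
    have h3 := trace_eq_sum_embeddings ℂ (K := ℚ) (L := K) (x := κ * z)
    rw [← h2, Algebra.traceForm_apply]
    simpa using h3
  have h4 : Tendsto (fun n => ((φ (x n) : ℚ) : ℂ)) atTop (𝓝 0) := by
    simp only [h1]
    have := tendsto_finsetSum (Finset.univ : Finset (K →ₐ[ℚ] ℂ))
      fun σ _ => (hx σ).const_mul (σ κ)
    simpa using this
  have := (Complex.continuous_re.tendsto 0).comp h4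
  simpa [Function.comp_def] using this

lemma rat_seq {r : ℝ} (hr : 0 ≤ r) :
    ∃ p : ℕ → ℚ, (∀ n, 0 ≤ p n) ∧ Tendsto (fun n => ((p n : ℚ) : ℂ)) atTop (𝓝 (r : ℂ)) := by
  refine ⟨fun n => (⌈r * n⌉₊ : ℚ) / n, fun n => by positivity, ?_⟩
  have h1 := (tendsto_nat_ceil_mul_div_atTop hr).comp tendsto_natCast_atTop_atTop
  have h2 := (Complex.continuous_ofReal.tendsto r).comp h1
  refine h2.congr fun n => ?_
  simp

omit [FiniteDimensional ℚ K] in
lemma exists_small (h2 : ∀ σ : K →ₐ[ℚ] ℂ, ∃ y ∈ Y, ¬ ((σ y).im = 0 ∧ 0 ≤ (σ y).re))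
    (J : Finset (K →ₐ[ℚ] ℂ)) : ∃ c z, Rep Y c z ∧ ∀ σ ∈ J, ‖σ (1 + z)‖ < 1 := by
  classical
  have hmul : ∀ a b : K, (∃ c z, Rep Y c z ∧ a = 1 + z) → (∃ c z, Rep Y c z ∧ b = 1 + z) →
      ∃ c z, Rep Y c z ∧ a * b = 1 + z := by
    rintro _ _ ⟨c, z, h, rfl⟩ ⟨c', z', h', rfl⟩
    exact ⟨_, _, (h.add h').add (h.mul h'), by ring⟩
  have hpow : ∀ (a : K) (n : ℕ), (∃ c z, Rep Y c z ∧ a = 1 + z) →
      ∃ c z, Rep Y c z ∧ a ^ n = 1 + z := by
    intro a n ha
    induction n with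
    | zero => exact ⟨_, _, Rep.zero, by simp⟩
    | succ n ih => rw [pow_succ]; exact hmul _ _ ih ha
  induction J using Finset.induction_on with
  | empty => exact ⟨_, _, Rep.zero, by simp⟩
  | insert τ J _ ih =>
    obtain ⟨c, z, hz, hJ⟩ := ih
    obtain ⟨y, hy, hy'⟩ := h2 τ
    obtain ⟨j, k, r, s, hr, hs, e⟩ := cone_pow hy'
    obtain ⟨p, hp, tp⟩ := rat_seq hr
    obtain ⟨p', hp', tp'⟩ := rat_seq hs
    have e1 : ∀ᶠ N : ℕ in atTop, ∀ σ ∈ J,
        ‖σ (1 + z)‖ ^ N * ‖1 + r * σ y ^ j + s * σ y ^ k‖ < 1 := by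
      rw [eventually_all_finset]
      intro σ hσ
      have := (tendsto_pow_atTop_nhds_zero_of_lt_one (norm_nonneg _) (hJ σ hσ)).mul_const
        ‖1 + r * σ y ^ j + s * σ y ^ k‖
      rw [zero_mul] at this
      exact this.eventually (gt_mem_nhds one_pos)
    obtain ⟨N, hN⟩ := e1.exists
    have e2 : ∀ᶠ n : ℕ in atTop, ∀ σ ∈ insert τ J,
        ‖σ (1 + z)‖ ^ N * ‖1 + (p n : ℂ) * σ y ^ j + (p' n : ℂ) * σ y ^ k‖ < 1 := by
      rw [eventually_all_finset]
      intro σ hσ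
      have t := (((tendsto_const_nhds (x := (1 : ℂ))).add (tp.mul_const (σ y ^ j))).add
        (tp'.mul_const (σ y ^ k))).norm.const_mul (‖σ (1 + z)‖ ^ N)
      refine t.eventually (gt_mem_nhds ?_)
      rcases Finset.mem_insert.1 hσ with rfl | hσ
      · rw [e]; simp
      · exact hN σ hσ
    obtain ⟨n, hn⟩ := e2.exists
    obtain ⟨c', z', h', e'⟩ := hmul _ (1 + (p n * y ^ j + p' n * y ^ k))
      (hpow (1 + z) N ⟨c, z, hz, rfl⟩)
      ⟨_, _, (Rep.base _ (hp n) _ (Y.pow_mem hy j)).add (Rep.base _ (hp' n) _ (Y.pow_mem hy k)), rfl⟩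
    refine ⟨c', z', h', fun σ hσ => ?_⟩
    rw [← e']
    convert hn σ hσ using 1
    rw [map_mul, norm_mul, map_pow, norm_pow]
    simp [add_assoc]

lemma rep_neg {ι : Type} [Fintype ι] (b : Module.Basis ι ℚ K) (hb : ∀ i, b i ∈ Y)
    (h2 : ∀ σ : K →ₐ[ℚ] ℂ, ∃ y ∈ Y, ¬ ((σ y).im = 0 ∧ 0 ≤ (σ y).re)) (i : ι) :
    ∃ c, Rep Y c (-b i) := by
  classical
  obtain ⟨c, z, hz, hJ⟩ := exists_small h2 Finset.univ
  have hpow : ∀ n : ℕ, ∃ c, Rep Y c ((1 + z) ^ n - 1) := by
    intro n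
    induction n with
    | zero => exact ⟨_, by simpa using Rep.zero⟩
    | succ n ih =>
      obtain ⟨d, hd⟩ := ih
      refine ⟨d + c + d * c, ?_⟩
      convert (hd.add hz).add (hd.mul hz) using 1
      ring
  have hp : Rep Y (∑ _i : ι, 1) (∑ i, b i) := Rep.sum _ fun i _ => Rep.of_mem (hb i)
  have t : ∀ σ : K →ₐ[ℚ] ℂ, Tendsto (fun n => σ ((1 + z) ^ n * ∑ i, b i)) atTop (𝓝 0) := by
    intro σ
    have := (tendsto_pow_atTop_nhds_zero_of_norm_lt_one (hJ σ (Finset.mem_univ _))).mul_const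
      (σ (∑ i, b i))
    simpa only [map_mul, map_pow, zero_mul] using this
  have e1 : ∀ᶠ n : ℕ in atTop, ∀ i, b.coord i ((1 + z) ^ n * ∑ i, b i) ≤ 1 / 2 := by
    rw [eventually_all]
    intro i
    filter_upwards [(coord_tendsto (b.coord i) t).eventually
      (gt_mem_nhds (show (0 : ℝ) < 1 / 2 by norm_num))] with n hn
    have : ((b.coord i ((1 + z) ^ n * ∑ i, b i) : ℚ) : ℝ) ≤ ((1 / 2 : ℚ) : ℝ) := by
      push_cast; exact hn.le
    exact_mod_cast this
  obtain ⟨n, hn⟩ := e1.exists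
  obtain ⟨d, hd⟩ := hpow n
  have h3 := Rep.sum Finset.univ fun i _ => Rep.base _ (sub_nonneg.2 (hn i)) _ (hb i)
  have h4 := (((hd.mul hp).add h3).smul (p := 2) (by norm_num)).add
    (Rep.sum (Finset.univ.erase i) fun j _ => Rep.of_mem (hb j))
  refine ⟨_, Eq.mp (congrArg _ ?_) h4⟩
  · have e3 := b.sum_repr ((1 + z) ^ n * ∑ i, b i)
    have e4 := Finset.add_sum_erase Finset.univ (fun j => b j) (Finset.mem_univ i)
    simp only [Rat.smul_def] at e3
    simp only [Module.Basis.coord_apply, Rat.cast_sub, sub_mul, Finset.sum_sub_distrib, e3,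
      ← Finset.mul_sum]
    push_cast
    linear_combination e4

omit [FiniteDimensional ℚ K] in
lemma exists_big (h1 : ∀ σ : K →ₐ[ℚ] ℂ, ∃ y ∈ Y, 1 < ‖σ y‖)
    (J : Finset (K →ₐ[ℚ] ℂ)) : ∃ u, Rep Y 1 u ∧ ∀ σ ∈ J, 1 < ‖σ u‖ := by
  classical
  induction J using Finset.induction_on with
  | empty => exact ⟨_, Rep.of_mem Y.one_mem, by simp⟩
  | insert τ J _ ih =>
    obtain ⟨u, hu, hJ⟩ := ih
    by_cases hτ : 1 < ‖τ u‖
    · refine ⟨u, hu, fun σ hσ => ?_⟩
      rcases Finset.mem_insert.1 hσ with rfl | hσ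
      · exact hτ
      · exact hJ σ hσ
    obtain ⟨y, hy, hy'⟩ := h1 τ
    obtain ⟨M, hM⟩ := ((tendsto_pow_atTop_atTop_of_one_lt hy').eventually_gt_atTop 3).exists
    have e1 : ∀ᶠ N : ℕ in atTop, ∀ σ ∈ J, ‖σ y‖ ^ M + 2 < ‖σ u‖ ^ N := by
      rw [eventually_all_finset]
      exact fun σ hσ => (tendsto_pow_atTop_atTop_of_one_lt (hJ σ hσ)).eventually_gt_atTop _
    obtain ⟨N, hN⟩ := e1.exists
    refine ⟨((1 / 2 : ℚ) : K) * (u ^ N + y ^ M), ?_, fun σ hσ => ?_⟩
    · convert ((hu.pow N).add (Rep.of_mem (Y.pow_mem hy M))).smul (p := 1 / 2) (by norm_num) using 1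
      norm_num
    have e2 : ‖σ (((1 / 2 : ℚ) : K) * (u ^ N + y ^ M))‖ = ‖σ u ^ N + σ y ^ M‖ / 2 := by
      rw [map_mul, map_ratCast, norm_mul]
      simp [div_eq_inv_mul]
    rw [e2, lt_div_iff₀ two_pos]
    have a1 := norm_sub_le (σ u ^ N + σ y ^ M) (σ y ^ M)
    have a2 := norm_sub_le (σ u ^ N + σ y ^ M) (σ u ^ N)
    rw [add_sub_cancel_right, norm_pow, norm_pow] at a1
    rw [add_sub_cancel_left, norm_pow, norm_pow] at a2
    rcases Finset.mem_insert.1 hσ with rfl | hσ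
    · have := pow_le_one₀ (n := N) (norm_nonneg _) (not_lt.1 hτ)
      linarith
    · linarith [hN σ hσ]

theorem alg (h0 : (0 : K) ∈ Y) (hsp : Submodule.span ℚ (Y : Set K) = ⊤)
    (h1 : ∀ σ : K →ₐ[ℚ] ℂ, ∃ y ∈ Y, 1 < ‖σ y‖)
    (h2 : ∀ σ : K →ₐ[ℚ] ℂ, ∃ y ∈ Y, ¬ ((σ y).im = 0 ∧ 0 ≤ (σ y).re))
    {x : K} (hx : x ∈ Subring.closure (Y : Set K)) :
    ∃ (k : ℕ) (y : Fin k → K), (∀ i, y i ∈ Y) ∧ x = ∑ i, (y i - 1) := by
  classical
  obtain ⟨s, hs, hs1, hs2⟩ := exists_linearIndependent ℚ (Y : Set K)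
  let b : Module.Basis s ℚ K := Module.Basis.mk hs2 (by rw [Subtype.range_coe, hs1, hsp])
  have hb : ∀ i, b i ∈ Y := fun i => by simpa [b] using hs i.2
  let _ : Fintype s := FiniteDimensional.fintypeBasisIndex b
  choose m hm using rep_neg b hb h2
  have hall : ∀ x : K, ∃ c, Rep Y c x ∧ |c| ≤ ∑ i, |b.coord i x| * (1 + |m i|) := by
    intro x
    have h3 : ∀ i, ∃ c, Rep Y c ((b.coord i x : K) * b i) ∧ |c| ≤ |b.coord i x| * (1 + |m i|) := by
      intro i
      rcases le_total 0 (b.coord i x) with h | h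
      · refine ⟨_, Rep.base _ h _ (hb i), ?_⟩
        nlinarith [abs_nonneg (b.coord i x), abs_nonneg (m i)]
      · refine ⟨-b.coord i x * m i, by simpa using (hm i).smul (neg_nonneg.2 h), ?_⟩
        rw [abs_mul, abs_neg]
        nlinarith [abs_nonneg (b.coord i x), abs_nonneg (m i)]
    choose c hc hc' using h3
    refine ⟨∑ i, c i, ?_, (Finset.abs_sum_le_sum_abs _ _).trans (Finset.sum_le_sum fun i _ => hc' i)⟩
    convert Rep.sum Finset.univ fun i _ => hc i using 1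
    have e3 := b.sum_repr x
    simp only [Rat.smul_def] at e3
    simp only [Module.Basis.coord_apply, e3]
  obtain ⟨u, hu, hu'⟩ := exists_big h1 Finset.univ
  have hu0 : u ≠ 0 := by
    rintro rfl
    have := hu' (IsAlgClosed.lift) (Finset.mem_univ _)
    norm_num at this
  have t : ∀ σ : K →ₐ[ℚ] ℂ, Tendsto (fun n => σ (u⁻¹ ^ n)) atTop (𝓝 0) := by
    intro σ
    have : ‖σ u⁻¹‖ < 1 := by
      rw [map_inv₀, norm_inv]
      exact inv_lt_one_of_one_lt₀ (hu' σ (Finset.mem_univ _))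
    simpa only [map_pow] using tendsto_pow_atTop_nhds_zero_of_norm_lt_one this
  have t2 : Tendsto (fun n => ∑ i, |((b.coord i (u⁻¹ ^ n) : ℚ) : ℝ)| * (1 + |(m i : ℝ)|))
      atTop (𝓝 0) := by
    have := tendsto_finsetSum (Finset.univ : Finset s)
      fun i _ => (coord_tendsto (b.coord i) t).abs.mul_const (1 + |(m i : ℝ)|)
    simpa using this
  obtain ⟨n, hn⟩ := (t2.eventually (gt_mem_nhds one_pos)).exists
  obtain ⟨c, hc, hc'⟩ := hall (u⁻¹ ^ n)
  have hc1 : c < 1 := by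
    have : ∑ i, |b.coord i (u⁻¹ ^ n)| * (1 + |m i|) < 1 := by exact_mod_cast hn
    exact ((le_abs_self c).trans hc').trans_lt this
  have h3 : Rep Y c 1 := by
    convert (hu.pow n).mul hc using 1
    · simp
    · rw [← mul_pow, mul_inv_cancel₀ hu0, one_pow]
  have hm1 : (-1 : K) ∈ SS Y := AddSubmonoid.subset_closure (by simpa using h0)
  have hone : (1 : K) ∈ SS Y := by
    obtain ⟨D, hD, -, h4⟩ := h3.clear
    set r : ℚ := D * (1 - c) with hr
    have hr0 : 0 < r := mul_pos (by exact_mod_cast hD) (sub_pos.2 hc1)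
    obtain ⟨a, ha⟩ : ∃ a : ℕ, r.num = a + 1 :=
      ⟨(r.num - 1).toNat, by have := Rat.num_pos.2 hr0; omega⟩
    have e1 : (r.den : ℚ) * r = a + 1 := by rw [Rat.den_mul_eq_num, ha]; push_cast; ring
    have e2 := congrArg (Rat.cast : ℚ → K) e1
    rw [hr] at e2
    push_cast at e2
    convert add_mem (nsmul_mem h4 r.den) (nsmul_mem hm1 a) using 1
    simp only [nsmul_eq_mul]
    rw [hr]
    linear_combination -e2
  have hneg : (-1 : K) ∈ Subsemiring.closure (Y : Set K) := by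
    obtain ⟨c, hc, -⟩ := hall (-1)
    obtain ⟨D, hD, h4, -⟩ := hc.clear
    obtain ⟨a, rfl⟩ := Nat.exists_eq_succ_of_ne_zero hD.ne'
    convert add_mem h4 (natCast_mem _ a) using 1
    push_cast; ring
  have h5 : x ∈ Subsemiring.closure (Y : Set K) := by
    induction hx using Subring.closure_induction with
    | mem x hx => exact Subsemiring.subset_closure hx
    | zero => exact zero_mem _
    | one => exact one_mem _
    | add x y _ _ a b => exact add_mem a b
    | neg x _ a => simpa using mul_mem hneg a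
    | mul x y _ _ a b => exact mul_mem a b
  have h6 : x ∈ SS Y := by
    rw [Subsemiring.mem_closure_iff, Submonoid.closure_eq] at h5
    refine (AddSubmonoid.closure_le (S := SS Y)).2 (fun y hy => ?_) h5
    have : y - 1 ∈ SS Y := AddSubmonoid.subset_closure (by simpa using hy)
    simpa using add_mem this hone
  obtain ⟨l, hl, rfl⟩ := AddSubmonoid.exists_list_of_mem_closure h6
  refine ⟨l.length, fun i => l[i.1] + 1, fun i => hl _ (List.getElem_mem _), ?_⟩
  simp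

end Pool.Agent.P.MP_f55c5e_co.Ch
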