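import Mathlib

set_option autoImplicit false

namespace Pool.Agent.P.MP_f55c5e_co.Ch

variable {V : Type}

/-- no vertex separates the graph -/
def NoSep (r : V → V → Prop) : Prop :=
  ∀ (w : V) (U : Set V), U.Nonempty → w ∉ U → (∃ x, x ∉ U ∧ x ≠ w) →
    ∃ a ∈ U, ∃ b, b ∉ U ∧ b ≠ w ∧ r a b

/-- the pair `u, v` does not separate the graph -/
def NoSep2 (r : V → V → Prop) (u v : V) : Prop :=
  ∀ U : Set V, U.Nonempty → u ∉ U → v ∉ U → (∃ x, x ∉ U ∧ x ≠ u ∧ x ≠ v) →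
    ∃ a ∈ U, ∃ b, b ∉ U ∧ b ≠ u ∧ b ≠ v ∧ r a b

/-- a set with at most two neighbours and a connected complement -/
def Adm (r : V → V → Prop) (F : Set V) : Prop :=
  F.Nonempty ∧ ∃ a b, a ≠ b ∧ a ∉ F ∧ b ∉ F ∧ (∀ x ∈ F, ∀ y, y ∉ F → r x y → y = a ∨ y = b) ∧
    (r a b ∨ ∃ x, x ∉ F ∧ x ≠ a ∧ x ≠ b)

lemma NoSep.mono {r r' : V → V → Prop} (h : NoSep r) (hr : ∀ a b, r a b → r' a b) : NoSep r' := by
  intro w U h1 h2 h3
  obtain ⟨a, ha, b, b1, b2, b3⟩ := h w U h1 h2 h3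
  exact ⟨a, ha, b, b1, b2, hr a b b3⟩

lemma conn_aux {r : V → V → Prop} (hs : ∀ a b, r a b → r b a) (hn : NoSep r) {F : Set V}
    (hF : F.Nonempty) {a b : V} (ha : a ∉ F)
    (hN : ∀ x ∈ F, ∀ y, y ∉ F → r x y → y = a ∨ y = b) (S : Set V) (hb : b ∉ S)
    (hS : ∃ x, x ∈ S ∧ x ∉ F ∧ x ≠ a) :
    ∃ x y, x ∈ S ∧ x ∉ F ∧ y ∉ S ∧ y ∉ F ∧ r x y := by
  obtain ⟨z, hz⟩ := hF
  obtain ⟨x, x1, y, y1, y2, y3⟩ := hn a {x | x ∈ S ∧ x ∉ F ∧ x ≠ a} hS (fun h => h.2.2 rfl)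
    ⟨z, fun h => h.2.1 hz, fun h => ha (h ▸ hz)⟩
  have hy : y ∉ F := by
    intro hy
    rcases hN y hy x x1.2.1 (hs _ _ y3) with h | h
    · exact x1.2.2 h
    · exact hb (h ▸ x1.1)
  exact ⟨x, y, x1.1, x1.2.1, fun h => y1 ⟨h, hy, y2⟩, hy, y3⟩

lemma Adm.conn {r : V → V → Prop} (hs : ∀ a b, r a b → r b a) (hn : NoSep r) {F : Set V}
    (hF : Adm r F) (S : Set V) (h1 : ∃ x, x ∈ S ∧ x ∉ F) (h2 : ∃ x, x ∉ S ∧ x ∉ F) :
    ∃ x y, x ∈ S ∧ x ∉ F ∧ y ∉ S ∧ y ∉ F ∧ r x y := by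
  obtain ⟨hF, a, b, hab, ha, hb, hN, hx⟩ := hF
  have hN' : ∀ x ∈ F, ∀ y, y ∉ F → r x y → y = b ∨ y = a :=
    fun x hx y hy h => (hN x hx y hy h).symm
  have flip : (∃ x y, x ∈ Sᶜ ∧ x ∉ F ∧ y ∉ Sᶜ ∧ y ∉ F ∧ r x y) →
      ∃ x y, x ∈ S ∧ x ∉ F ∧ y ∉ S ∧ y ∉ F ∧ r x y := by
    rintro ⟨x, y, a1, a2, a3, a4, a5⟩
    exact ⟨y, x, not_not.1 a3, a4, a1, a2, hs _ _ a5⟩
  by_cases aS : a ∈ S <;> by_cases bS : b ∈ S
  · obtain ⟨x, x1, x2⟩ := h2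
    exact flip (conn_aux hs hn hF ha hN Sᶜ (not_not.2 bS) ⟨x, x1, x2, fun h => x1 (h ▸ aS)⟩)
  · rcases hx with h | ⟨x, x1, x2, x3⟩
    · exact ⟨a, b, aS, ha, bS, hb, h⟩
    · by_cases xS : x ∈ S
      · exact conn_aux hs hn hF ha hN S bS ⟨x, xS, x1, x2⟩
      · exact flip (conn_aux hs hn hF hb hN' Sᶜ (not_not.2 aS) ⟨x, xS, x1, x3⟩)
  · rcases hx with h | ⟨x, x1, x2, x3⟩
    · exact ⟨b, a, bS, hb, aS, ha, hs _ _ h⟩
    · by_cases xS : x ∈ S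
      · exact conn_aux hs hn hF hb hN' S aS ⟨x, xS, x1, x3⟩
      · exact flip (conn_aux hs hn hF ha hN Sᶜ (not_not.2 bS) ⟨x, xS, x1, x2⟩)
  · obtain ⟨x, x1, x2⟩ := h1
    exact conn_aux hs hn hF ha hN S bS ⟨x, x1, x2, fun h => aS (h ▸ x1)⟩

theorem frag [Finite V] [Nonempty V] {r : V → V → Prop} (hs : ∀ a b, r a b → r b a)
    (hi : ∀ a, ¬ r a a) (hn : NoSep r) (h3 : ∀ z a b, ∃ c, r z c ∧ c ≠ a ∧ c ≠ b) :
    ∃ u v, r u v ∧ NoSep (fun a b => r a b ∧ s(a, b) ≠ s(u, v)) ∧ NoSep2 r u v := by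
  classical
  have hne : ∀ {a b}, r a b → a ≠ b := fun {a b} h e => hi a (e ▸ h)
  have h0 : ∃ F, Adm r F := by
    obtain ⟨a⟩ := ‹Nonempty V›
    obtain ⟨b, hb, -⟩ := h3 a a a
    obtain ⟨c, -, c1, c2⟩ := h3 a a b
    refine ⟨{x | x ≠ a ∧ x ≠ b}, ⟨c, c1, c2⟩, a, b, hne hb, fun h => h.1 rfl, fun h => h.2 rfl,
      fun x _ y hy _ => ?_, Or.inl hb⟩
    by_contra h
    exact hy (not_or.1 h)
  obtain ⟨F, hF, hmin⟩ := (wellFounded_lt (α := Set V)).has_min {F | Adm r F} h0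
  have hsmall : ∀ A, Adm r A → A ⊆ F → ∀ u ∈ F, u ∉ A → False :=
    fun A hA h u hu hu' => hmin A hA (lt_of_le_of_ne h fun e => hu' (e ▸ hu))
  have hconn := Adm.conn hs hn hF
  obtain ⟨⟨u, hu⟩, a, b, hab, ha, hb, hN, -⟩ := hF
  obtain ⟨v, huv, v1, v2⟩ := h3 u a b
  have hv : v ∈ F := by
    by_contra h
    exact (hN u hu v h huv).elim v1 v2
  have K : ∀ (A : Set V) (u v p : V), A ⊆ F → u ∈ A → v ∉ A → p ∉ A → p ≠ v →
      (∀ x ∈ A, ∀ y, y ∉ A → r x y → y = p ∨ (x = u ∧ y = v)) → False := by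
    intro A u v p a1 a2 a3 a4 a5 a6
    obtain ⟨c, c1, c2, c3⟩ := h3 u p v
    have hc : c ∈ A := by
      by_contra h
      exact (a6 u a2 c h c1).elim c2 fun h => c3 h.2
    refine hsmall {x | x ∈ A ∧ x ≠ u} ⟨⟨c, hc, (hne c1).symm⟩, u, p, fun h => a4 (h ▸ a2),
      fun h => h.2 rfl, fun h => a4 h.1, fun x hx y hy hr => ?_,
      Or.inr ⟨v, fun h => a3 h.1, fun h => a3 (h ▸ a2), a5.symm⟩⟩ (fun x hx => a1 hx.1) u (a1 a2)
      fun h => h.2 rfl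
    by_cases h : y ∈ A
    · left
      by_contra h'
      exact hy ⟨h, h'⟩
    · rcases a6 x hx.1 y h hr with h' | h'
      · exact Or.inr h'
      · exact absurd h'.1 hx.2
  have L : ∀ (u v w : V) (U : Set V), u ∈ F → v ∈ F → w ∉ U → u ∈ U → v ∉ U → v ≠ w →
      (∀ x ∈ U, ∀ y, y ∉ U → y ≠ w → r x y → x = u ∧ y = v) →
      ∀ p, (p = w ∨ (w ∉ F ∧ w ≠ a ∧ w ≠ b ∧ p ∉ F)) → (a ∈ U → a = p) → (b ∈ U → b = p) →
      False := by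
    intro u v w U hu hv c1 c2 c3 c4 c5 p hp pa pb
    refine K (U ∩ F) u v p Set.inter_subset_right ⟨c2, hu⟩ (fun h => c3 h.1) ?_ ?_ ?_
    · rcases hp with rfl | hp
      · exact fun h => c1 h.1
      · exact fun h => hp.2.2.2 h.2
    · rcases hp with rfl | hp
      · exact c4.symm
      · exact fun h => hp.2.2.2 (h ▸ hv)
    · intro x hx y hy hr
      by_cases yU : y ∈ U
      · rcases hN x hx.2 y (fun h => hy ⟨yU, h⟩) hr with rfl | rfl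
        · exact Or.inl (pa yU)
        · exact Or.inl (pb yU)
      · by_cases yw : y = w
        · rcases hp with rfl | hp
          · exact Or.inl yw
          · subst yw
            exact ((hN x hx.2 y hp.1 hr).elim hp.2.1 hp.2.2.1).elim
        · exact Or.inr (c5 x hx.1 y yU yw hr)
  have M : ∀ (u v w : V) (U : Set V), u ∈ F → v ∈ F → w ∉ U → u ∈ U → v ∉ U → v ≠ w →
      (∀ x ∈ U, ∀ y, y ∉ U → y ≠ w → r x y → x = u ∧ y = v) → False := by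
    intro u v w U hu hv c1 c2 c3 c4 c5
    have c6 : ∀ x ∈ {x | x ∉ U ∧ x ≠ w}, ∀ y, y ∉ {x | x ∉ U ∧ x ≠ w} → y ≠ w → r x y →
        x = v ∧ y = u := by
      intro x hx y hy yw hr
      have yU : y ∈ U := by
        by_contra h
        exact hy ⟨h, yw⟩
      exact (c5 y yU x hx.1 hx.2 (hs _ _ hr)).symm
    have L' := L v u w {x | x ∉ U ∧ x ≠ w} hv hu (fun h => h.2 rfl) ⟨c3, c4⟩ (fun h => h.1 c2)
      (fun h => c1 (h ▸ c2)) c6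
    have cF : ∀ x y, x ∈ U → x ∉ F → y ∉ U → y ∉ F → w ∈ F → False := by
      intro x y x1 x2 y1 y2 wF
      obtain ⟨x, y, d1, d2, d3, d4, d5⟩ := hconn U ⟨x, x1, x2⟩ ⟨y, y1, y2⟩
      exact d2 ((c5 x d1 y d3 (fun h => d4 (h ▸ wF)) d5).1 ▸ hu)
    by_cases aU : a ∈ U <;> by_cases bU : b ∈ U
    · exact L' w (Or.inl rfl) (fun h => (h.1 aU).elim) (fun h => (h.1 bU).elim)
    · by_cases bw : b = w
      · exact L' w (Or.inl rfl) (fun h => (h.1 aU).elim) (fun _ => bw)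
      · exact L u v w U hu hv c1 c2 c3 c4 c5 a (Or.inr ⟨cF a b aU ha bU hb,
          fun h => c1 (h ▸ aU), Ne.symm bw, ha⟩) (fun _ => rfl) (fun h => (bU h).elim)
    · by_cases aw : a = w
      · exact L' w (Or.inl rfl) (fun _ => aw) (fun h => (h.1 bU).elim)
      · exact L u v w U hu hv c1 c2 c3 c4 c5 b (Or.inr ⟨cF b a bU hb aU ha,
          Ne.symm aw, fun h => c1 (h ▸ bU), hb⟩) (fun h => (aU h).elim) (fun _ => rfl)
    · exact L u v w U hu hv c1 c2 c3 c4 c5 w (Or.inl rfl) (fun h => (aU h).elim)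
        (fun h => (bU h).elim)
  refine ⟨u, v, huv, fun w U h1 h2 h4 => ?_, fun U h1 h2 h4 h5 => ?_⟩
  · by_contra hc
    push Not at hc
    obtain ⟨x, x1, y, y1, y2, y3⟩ := hn w U h1 h2 h4
    have e := hc x x1 y y1 y2 y3
    have key : ∀ x' ∈ U, ∀ y', y' ∉ U → y' ≠ w → r x' y' → x' = x ∧ y' = y := by
      intro x' a1 y' a2 a3 a4
      rcases Sym2.eq_iff.1 ((hc x' a1 y' a2 a3 a4).trans e.symm) with h | h
      · exact h
      · exact absurd (h.1 ▸ a1) y1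
    rcases Sym2.eq_iff.1 e with h | h
    · exact M x y w U (h.1 ▸ hu) (h.2 ▸ hv) h2 x1 y1 y2 key
    · exact M x y w U (h.1 ▸ hv) (h.2 ▸ hu) h2 x1 y1 y2 key
  · by_contra hc
    push Not at hc
    have A1 : Adm r U := ⟨h1, u, v, hne huv, h2, h4, fun x hx y hy hr => by
      by_contra h
      exact hc x hx y hy (not_or.1 h).1 (not_or.1 h).2 hr, Or.inl huv⟩
    have A2 : Adm r {x | x ∉ U ∧ x ≠ u ∧ x ≠ v} := ⟨h5, u, v, hne huv, fun h => h.2.1 rfl,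
      fun h => h.2.2 rfl, fun x hx y hy hr => by
        by_contra h
        have yU : y ∈ U := by
          by_contra h'
          exact hy ⟨h', not_or.1 h⟩
        exact hc y yU x hx.1 hx.2.1 hx.2.2 (hs _ _ hr), Or.inl huv⟩
    by_cases e1 : U ⊆ F
    · exact hsmall U A1 e1 u hu h2
    by_cases e2 : {x | x ∉ U ∧ x ≠ u ∧ x ≠ v} ⊆ F
    · exact hsmall _ A2 e2 u hu fun h => h.2.1 rfl
    obtain ⟨x, x1, x2⟩ := Set.not_subset.1 e1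
    obtain ⟨y, y1, y2⟩ := Set.not_subset.1 e2
    obtain ⟨x, y, d1, d2, d3, d4, d5⟩ := hconn U ⟨x, x1, x2⟩ ⟨y, y1.1, y2⟩
    exact hc x d1 y d3 (fun h => d4 (h ▸ hu)) (fun h => d4 (h ▸ hv)) d5

lemma noSep2_of_deg {r : V → V → Prop} (hs : ∀ a b, r a b → r b a) (hn : NoSep r) {z a b : V}
    (haz : a ≠ z) (hz : ∀ c, r z c → c = a ∨ c = b) : NoSep2 r a z := by
  intro U h1 h2 h3 ⟨x, x1, x2, x3⟩
  by_cases hb : b ∈ U
  · obtain ⟨c, c1, d, d1, d2, d3⟩ := hn a (insert z U) ⟨z, by simp⟩ (by simp [haz, h2])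
      ⟨x, by simp [x1, x3], x2⟩
    simp only [Set.mem_insert_iff, not_or] at c1 d1
    rcases c1 with rfl | c1
    · exact ((hz d d3).elim d2 fun h => d1.2 (h ▸ hb)).elim
    · exact ⟨c, c1, d, d1.2, d2, d1.1, d3⟩
  · obtain ⟨c, c1, d, d1, d2, d3⟩ := hn a U h1 h2 ⟨x, x1, x2⟩
    refine ⟨c, c1, d, d1, d2, ?_, d3⟩
    rintro rfl
    exact (hz c (hs _ _ d3)).elim (fun h => h2 (h ▸ c1)) fun h => hb (h ▸ c1)

lemma noSep_map {V' : Type} {r : V → V → Prop} {r' : V' → V' → Prop} {u v : V} (hn : NoSep r)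
    (h2 : NoSep2 r u v) {φ : V → V'} (hφ : Function.Surjective φ) (huv : φ u = φ v)
    (hinj : ∀ x y, φ x = φ y → x = y ∨ s(x, y) = s(u, v))
    (hr : ∀ x y, r x y → φ x ≠ φ y → r' (φ x) (φ y)) : NoSep r' := by
  intro w U ⟨a, ha⟩ hw ⟨x, x1, x2⟩
  obtain ⟨a, rfl⟩ := hφ a
  obtain ⟨x, rfl⟩ := hφ x
  obtain ⟨w, rfl⟩ := hφ w
  have hw' : ∀ d, φ d = φ w → d = w ∨ φ w = φ u := by
    intro d h
    rcases hinj d w h with h' | h'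
    · exact Or.inl h'
    · rcases Sym2.eq_iff.1 h' with h' | h'
      · exact Or.inr (by rw [h'.2, huv])
      · exact Or.inr (by rw [h'.2])
  by_cases e : φ w = φ u
  · obtain ⟨c, c1, d, d1, d2, d3, d4⟩ := h2 (φ ⁻¹' U) ⟨a, ha⟩ (fun h => hw (e ▸ h))
      (fun h => hw (e ▸ huv ▸ h)) ⟨x, x1, fun h => x2 (h ▸ e.symm), fun h => x2 (h ▸ huv ▸ e.symm)⟩
    refine ⟨φ c, c1, φ d, d1, fun h => ?_, hr _ _ d4 fun h => d1 (h ▸ c1 : φ d ∈ U)⟩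
    rcases hinj d u (h.trans e) with h' | h'
    · exact d2 h'
    · rcases Sym2.eq_iff.1 h' with h' | h'
      · exact d2 h'.1
      · exact d3 h'.1
  · obtain ⟨c, c1, d, d1, d2, d3⟩ := hn w (φ ⁻¹' U) ⟨a, ha⟩ hw ⟨x, x1, fun h => x2 (h ▸ rfl)⟩
    exact ⟨φ c, c1, φ d, d1, fun h => (hw' d h).elim d2 e,
      hr _ _ d3 fun h => d1 (h ▸ c1 : φ d ∈ U)⟩

end Pool.Agent.P.MP_f55c5e_co.Ch
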