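import Mathlib

set_option autoImplicit false

open Finset Polynomial

namespace Pool.Agent.P.MP_f55c5e_co.Ch

/-- `z` is a root of the chromatic polynomial of a finite simple graph -/
def IsRoot (z : ℂ) : Prop :=
  ∃ m : ℕ, ∃ G : SimpleGraph (Fin m), ∃ p : ℤ[X],
    (∀ q : ℕ, p.eval (q : ℤ) = (Nat.card (G.Coloring (Fin q)) : ℤ)) ∧ aeval z p = 0

/-- the colouring `c` respects the constraints `R` -/
def Ok {W C : Type} (R : W → W → Prop) (c : W → C) : Prop := ∀ x y, R x y → c x ≠ c y

open Classical in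
/-- indicator -/
noncomputable def ind (P : Prop) : ℤ := if P then 1 else 0

lemma ind_and (P Q : Prop) : ind (P ∧ Q) = ind P * ind Q := by
  unfold ind
  by_cases hP : P <;> by_cases hQ : Q <;> simp [hP, hQ]

lemma ind_congr {P Q : Prop} (h : P ↔ Q) : ind P = ind Q := by
  rw [propext h]

lemma ind_pos {P : Prop} (h : P) : ind P = 1 := by simp [ind, h]

lemma ind_neg {P : Prop} (h : ¬ P) : ind P = 0 := by simp [ind, h]

/-- push constraints along a map -/
def push {W W' : Type} (f : W → W') (R : W → W → Prop) (x y : W') : Prop :=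
  ∃ a b, R a b ∧ f a = x ∧ f b = y

lemma ok_push {W W' C : Type} (f : W → W') (R : W → W → Prop) (c : W' → C) :
    Ok (push f R) c ↔ Ok R (c ∘ f) := by
  constructor
  · intro h a b hab
    exact h _ _ ⟨a, b, hab, rfl, rfl⟩
  · rintro h _ _ ⟨a, b, hab, rfl, rfl⟩
    exact h a b hab

lemma push_irrefl {W W' : Type} {f : W → W'} (hf : Function.Injective f) {R : W → W → Prop}
    (hR : ∀ x, ¬ R x x) (x : W') : ¬ push f R x x := by
  rintro ⟨a, b, hab, h1, h2⟩
  have : a = b := hf (h1.trans h2.symm)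
  subst this
  exact hR a hab

lemma ok_or {W C : Type} (R S : W → W → Prop) (c : W → C) :
    Ok (fun x y => R x y ∨ S x y) c ↔ Ok R c ∧ Ok S c := by
  constructor
  · intro h
    exact ⟨fun x y hxy => h x y (Or.inl hxy), fun x y hxy => h x y (Or.inr hxy)⟩
  · rintro ⟨h1, h2⟩ x y (hxy | hxy)
    · exact h1 x y hxy
    · exact h2 x y hxy

lemma card_col {W : Type} [Fintype W] [DecidableEq W] (G : SimpleGraph W) (q : ℕ) :
    (Nat.card (G.Coloring (Fin q)) : ℤ) = ∑ c : W → Fin q, ind (Ok G.Adj c) := by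
  classical
  have e : G.Coloring (Fin q) ≃ {c : W → Fin q // Ok G.Adj c} :=
    { toFun := fun C => ⟨C, fun x y h => C.valid h⟩
      invFun := fun c => SimpleGraph.Coloring.mk c.1 (fun {x y} h => c.2 x y h)
      left_inv := fun C => rfl
      right_inv := fun c => rfl }
  rw [Nat.card_congr e, Nat.card_eq_fintype_card, Fintype.card_subtype, Finset.card_filter]
  push_cast
  refine Finset.sum_congr rfl fun c _ => ?_
  simp [ind]

/-- weight functions realised by a graph with terminals `T` -/
def Rl (T : Type) (F : (q : ℕ) → (T → Fin q) → ℤ) : Prop :=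
  ∃ (I : Type) (_ : Fintype I) (_ : DecidableEq I) (R : T ⊕ I → T ⊕ I → Prop), (∀ x, ¬ R x x) ∧
    ∀ q τ, F q τ = ∑ c : I → Fin q, ind (Ok R (Sum.elim τ c))

lemma Rl.congr {T : Type} {F G : (q : ℕ) → (T → Fin q) → ℤ} (h : Rl T F)
    (e : ∀ q τ, G q τ = F q τ) : Rl T G := by
  have : G = F := by funext q τ; exact e q τ
  rwa [this]

lemma Rl.one (T : Type) : Rl T (fun _ _ => 1) := by
  refine ⟨Empty, inferInstance, inferInstance, fun _ _ => False, fun _ h => h, fun q τ => ?_⟩
  rw [Fintype.sum_unique]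
  exact (ind_pos (fun _ _ h => h.elim)).symm

lemma Rl.edge {T : Type} {a b : T} (hab : a ≠ b) :
    Rl T (fun _ τ => if τ a = τ b then 0 else 1) := by
  refine ⟨Empty, inferInstance, inferInstance, fun x y => x = Sum.inl a ∧ y = Sum.inl b, ?_,
    fun q τ => ?_⟩
  · rintro x ⟨h1, h2⟩
    exact hab (Sum.inl_injective (h1.symm.trans h2))
  · rw [Fintype.sum_unique]
    beta_reduce
    split_ifs with h
    · rw [ind_neg]
      intro h'
      exact h' _ _ ⟨rfl, rfl⟩ h
    · rw [ind_pos]
      rintro _ _ ⟨rfl, rfl⟩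
      exact h

lemma Rl.mul {T : Type} {F G : (q : ℕ) → (T → Fin q) → ℤ} (hF : Rl T F) (hG : Rl T G) :
    Rl T (fun q τ => F q τ * G q τ) := by
  obtain ⟨I, _, _, R, hR, hF⟩ := hF
  obtain ⟨J, _, _, S, hS, hG⟩ := hG
  refine ⟨I ⊕ J, inferInstance, inferInstance,
    fun x y => push (Sum.map id Sum.inl) R x y ∨ push (Sum.map id Sum.inr) S x y, ?_,
    fun q τ => ?_⟩
  · rintro x (h | h)
    · exact push_irrefl (Function.injective_id.sumMap Sum.inl_injective) hR x h
    · exact push_irrefl (Function.injective_id.sumMap Sum.inr_injective) hS x h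
  · beta_reduce
    rw [hF, hG, Finset.sum_mul_sum, ← Fintype.sum_prod_type']
    symm
    refine Fintype.sum_equiv (Equiv.sumArrowEquivProdArrow I J (Fin q)) _ _ fun c => ?_
    rw [← ind_and]
    refine ind_congr ?_
    rw [ok_or, ok_push, ok_push]
    have h1 : Sum.elim τ c ∘ Sum.map id Sum.inl =
        Sum.elim τ ((Equiv.sumArrowEquivProdArrow I J (Fin q)) c).1 := by
      funext x; rcases x with x | x <;> rfl
    have h2 : Sum.elim τ c ∘ Sum.map id Sum.inr =
        Sum.elim τ ((Equiv.sumArrowEquivProdArrow I J (Fin q)) c).2 := by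
      funext x; rcases x with x | x <;> rfl
    rw [h1, h2]

lemma Rl.prod {T ι : Type} (s : Finset ι) {F : ι → (q : ℕ) → (T → Fin q) → ℤ}
    (hF : ∀ i ∈ s, Rl T (F i)) : Rl T (fun q τ => ∏ i ∈ s, F i q τ) := by
  classical
  induction s using Finset.induction_on with
  | empty => simpa using Rl.one T
  | insert a s ha ih =>
    refine ((hF a (by simp)).mul (ih fun i hi => hF i (by simp [hi]))).congr fun q τ => ?_
    rw [Finset.prod_insert ha]

lemma Rl.comp {T T' : Type} {F : (q : ℕ) → (T → Fin q) → ℤ} (hF : Rl T F) {f : T → T'}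
    (hf : Function.Injective f) : Rl T' (fun q τ => F q (τ ∘ f)) := by
  obtain ⟨I, _, _, R, hR, hF⟩ := hF
  refine ⟨I, inferInstance, inferInstance, push (Sum.map f id) R,
    push_irrefl (hf.sumMap Function.injective_id) hR, fun q τ => ?_⟩
  beta_reduce
  rw [hF]
  refine Finset.sum_congr rfl fun c _ => ind_congr ?_
  rw [ok_push]
  have h1 : Sum.elim τ c ∘ Sum.map f id = Sum.elim (τ ∘ f) c := by
    funext x; rcases x with x | x <;> rfl
  rw [h1]

/-- make the terminals in `U` inner vertices -/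
lemma Rl.sum {T U : Type} [Fintype U] [DecidableEq U] {F : (q : ℕ) → (T ⊕ U → Fin q) → ℤ}
    (hF : Rl (T ⊕ U) F) : Rl T (fun q τ => ∑ u : U → Fin q, F q (Sum.elim τ u)) := by
  obtain ⟨I, _, _, R, hR, hF⟩ := hF
  refine ⟨U ⊕ I, inferInstance, inferInstance, push (Equiv.sumAssoc T U I) R,
    push_irrefl (Equiv.injective _) hR, fun q τ => ?_⟩
  simp only [hF]
  rw [← Fintype.sum_prod_type']
  symm
  refine Fintype.sum_equiv (Equiv.sumArrowEquivProdArrow U I (Fin q)) _ _ fun c => ?_
  refine ind_congr ?_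
  rw [ok_push]
  have h1 : Sum.elim τ c ∘ (Equiv.sumAssoc T U I) =
      Sum.elim (Sum.elim τ ((Equiv.sumArrowEquivProdArrow U I (Fin q)) c).1)
        ((Equiv.sumArrowEquivProdArrow U I (Fin q)) c).2 := by
    funext x; rcases x with (x | x) | x <;> rfl
  rw [h1]

lemma Rl.root {T : Type} [Fintype T] [DecidableEq T] {F : (q : ℕ) → (T → Fin q) → ℤ}
    (hF : Rl T F) {p : ℤ[X]} (hp : ∀ q : ℕ, p.eval (q : ℤ) = ∑ τ : T → Fin q, F q τ) {z : ℂ}
    (hz : aeval z p = 0) : IsRoot z := by
  classical
  obtain ⟨I, _, _, R, hR, hF⟩ := hF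
  let e := Fintype.equivFin (T ⊕ I)
  refine ⟨_, SimpleGraph.fromRel (push e R), p, fun q => ?_, hz⟩
  rw [hp, card_col]
  simp only [hF]
  rw [← Fintype.sum_prod_type']
  symm
  refine Fintype.sum_equiv ((e.symm.arrowCongr (Equiv.refl _)).trans
    (Equiv.sumArrowEquivProdArrow T I (Fin q))) _ _ fun c => ?_
  refine ind_congr ?_
  have h1 : Sum.elim (((e.symm.arrowCongr (Equiv.refl _)).trans
      (Equiv.sumArrowEquivProdArrow T I (Fin q))) c).1 (((e.symm.arrowCongr (Equiv.refl _)).trans
      (Equiv.sumArrowEquivProdArrow T I (Fin q))) c).2 = c ∘ e := by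
    funext x; rcases x with x | x <;> rfl
  rw [h1, ← ok_push]
  constructor
  · intro h x y hxy
    refine h x y ?_
    rw [SimpleGraph.fromRel_adj]
    refine ⟨?_, Or.inl hxy⟩
    rintro rfl
    exact push_irrefl e.injective hR x hxy
  · intro h x y hxy
    rw [SimpleGraph.fromRel_adj] at hxy
    rcases hxy.2 with h' | h'
    · exact h x y h'
    · exact (h y x h').symm

/-- add a terminal that is joined to every vertex -/
lemma Rl.cone {T : Type} {F : (q : ℕ) → (T → Fin q) → ℤ} (hF : Rl T F) :
    ∃ G : (q : ℕ) → (T ⊕ Unit → Fin q) → ℤ, Rl (T ⊕ Unit) G ∧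
      (∀ (q : ℕ) (k : Fin (q + 1)) (τ : T → Fin q),
        G (q + 1) (Sum.elim (k.succAbove ∘ τ) (fun _ => k)) = F q τ) ∧
      (∀ (q : ℕ) (τ : T ⊕ Unit → Fin q) (t : T), τ (Sum.inl t) = τ (Sum.inr ()) → G q τ = 0) := by
  classical
  obtain ⟨I, _, _, R, hR, hF⟩ := hF
  let R' : (T ⊕ Unit) ⊕ I → (T ⊕ Unit) ⊕ I → Prop := fun x y =>
    push (Sum.map Sum.inl id) R x y ∨ (x = Sum.inl (Sum.inr ()) ∧ y ≠ x)
  refine ⟨fun q τ => ∑ c : I → Fin q, ind (Ok R' (Sum.elim τ c)),
    ⟨I, inferInstance, inferInstance, R', ?_, fun _ _ => rfl⟩, fun q k τ => ?_, fun q τ t ht => ?_⟩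
  · rintro x (h | h)
    · exact push_irrefl (Sum.inl_injective.sumMap Function.injective_id) hR x h
    · exact h.2 rfl
  · rw [hF]
    symm
    refine Finset.sum_of_injOn (fun c : I → Fin q => k.succAbove ∘ c) ?_ (by simp) ?_ ?_
    · intro c _ c' _ h
      exact (Fin.succAbove_right_injective.comp_left) h
    · intro c _ hc
      rw [ind_neg]
      intro h
      apply hc
      have hk : ∀ i, c i ≠ k := fun i =>
        (h _ (Sum.inr i) (Or.inr ⟨rfl, by simp⟩)).symm
      choose d hd using fun i => Fin.exists_succAbove_eq (hk i)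
      exact ⟨d, by simp, funext hd⟩
    · intro c _
      refine ind_congr ?_
      rw [ok_or, ok_push]
      have h1 : Sum.elim (Sum.elim (k.succAbove ∘ τ) fun _ : Unit => k) (k.succAbove ∘ c) ∘
          Sum.map Sum.inl id = k.succAbove ∘ Sum.elim τ c := by
        funext x; rcases x with x | x <;> rfl
      rw [h1]
      constructor
      · intro h
        refine ⟨fun x y hxy e => h x y hxy (Fin.succAbove_right_injective e), ?_⟩
        rintro _ y ⟨rfl, hy⟩
        rcases y with (y | y) | y
        · exact (Fin.succAbove_ne k _).symm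
        · exact (hy rfl).elim
        · exact (Fin.succAbove_ne k _).symm
      · intro h x y hxy e
        exact h.1 x y hxy (congrArg k.succAbove e)
  · refine Finset.sum_eq_zero fun c _ => ind_neg fun h => ?_
    exact h (Sum.inl (Sum.inr ())) (Sum.inl (Sum.inl t)) (Or.inr ⟨rfl, by simp⟩) ht.symm

/-- the pair `(A, B)` counts the colourings of a graph with two terminals, given the colours of
the terminals (equal, different) -/
def Imp (A B : ℤ[X]) : Prop :=
  Rl Bool (fun q τ => if τ false = τ true then A.eval (q : ℤ) else B.eval (q : ℤ))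

lemma Imp.one : Imp 1 1 := (Rl.one Bool).congr fun q τ => by simp

lemma Imp.edge : Imp 0 1 := (Rl.edge (a := false) (b := true) (by simp)).congr fun q τ => by simp

lemma Imp.mul {A B A' B' : ℤ[X]} (h : Imp A B) (h' : Imp A' B') : Imp (A * A') (B * B') :=
  (Rl.mul h h').congr fun q τ => by split_ifs <;> simp

lemma Imp.pow {A B : ℤ[X]} (h : Imp A B) (n : ℕ) : Imp (A ^ n) (B ^ n) := by
  induction n with
  | zero => simpa using Imp.one
  | succ n ih => simpa [pow_succ] using ih.mul h

lemma Imp.at {A B : ℤ[X]} (h : Imp A B) {T : Type} {a b : T} (hab : a ≠ b) :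
    Rl T (fun q τ => if τ a = τ b then A.eval (q : ℤ) else B.eval (q : ℤ)) := by
  have hf : Function.Injective (fun x : Bool => cond x b a) := by
    intro x y h
    cases x <;> cases y <;> simp_all [eq_comm]
  exact (Rl.comp h hf).congr fun q τ => rfl

lemma sum_two {q : ℕ} (a b : Fin q) (A B A' B' : ℤ) :
    ∑ k : Fin q, (if a = k then A else B) * (if k = b then A' else B') =
      if a = b then A * A' + (q - 1) * (B * B') else A * B' + B * A' + (q - 2) * (B * B') := by
  have h : ∀ k : Fin q, (if a = k then A else B) * (if k = b then A' else B') =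
      B * B' + (if a = k then (A - B) * B' else 0) + (if k = b then B * (A' - B') else 0) +
        (if a = k then (if a = b then (A - B) * (A' - B') else 0) else 0) := by
    intro k
    by_cases h1 : a = k
    · subst h1
      by_cases h2 : a = b <;> simp [h2] <;> ring
    · by_cases h2 : k = b <;> simp [h1, h2]
      · have : ¬ a = b := h2 ▸ h1
        simp [this]; ring
  simp only [h, Finset.sum_add_distrib, Finset.sum_ite_eq, Finset.sum_ite_eq', Finset.mem_univ,
    if_true, Finset.sum_const, Finset.card_univ, Fintype.card_fin, nsmul_eq_mul]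
  split_ifs <;> ring

lemma sum_unit {q : ℕ} (f : (Unit → Fin q) → ℤ) : ∑ u, f u = ∑ k : Fin q, f (fun _ => k) :=
  Fintype.sum_equiv (Equiv.funUnique Unit (Fin q)) _ _ fun _ => rfl

lemma Imp.series {A B A' B' : ℤ[X]} (h : Imp A B) (h' : Imp A' B') :
    Imp (A * A' + (X - 1) * (B * B')) (A * B' + B * A' + (X - 2) * (B * B')) := by
  have h1 := h.at (T := Bool ⊕ Unit) (a := Sum.inl false) (b := Sum.inr ()) (by simp)
  have h2 := h'.at (T := Bool ⊕ Unit) (a := Sum.inr ()) (b := Sum.inl true) (by simp)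
  refine (h1.mul h2).sum.congr fun q τ => ?_
  rw [sum_unit]
  refine Eq.trans ?_ (sum_two (τ false) (τ true) _ _ _ _).symm
  split_ifs <;> simp

lemma Imp.join {A B : ℤ[X]} (h : Imp A B) :
    Imp ((X - 1) * A.comp (X - 1)) ((X - 2) * B.comp (X - 1)) := by
  obtain ⟨G, hG, h1, h2⟩ := Rl.cone h
  refine hG.sum.congr fun q τ => ?_
  rw [sum_unit]
  obtain ⟨q, rfl⟩ : ∃ q', q = q' + 1 := ⟨q - 1, by have := (τ true).pos; omega⟩
  have key : ∀ k : Fin (q + 1), G (q + 1) (Sum.elim τ fun _ => k) =
      (if τ false = k then 0 else 1) * (if k = τ true then 0 else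
        if τ false = τ true then A.eval (q : ℤ) else B.eval (q : ℤ)) := by
    intro k
    by_cases e1 : τ false = k
    · rw [h2 _ _ false e1]; simp [e1]
    by_cases e2 : k = τ true
    · rw [h2 _ _ true e2.symm]; simp [e2]
    have hk : ∀ t, τ t ≠ k := by
      intro t
      cases t
      · exact e1
      · exact fun e => e2 e.symm
    choose d hd using fun t => Fin.exists_succAbove_eq (hk t)
    have hτ : τ = k.succAbove ∘ d := (funext hd).symm
    have h3 := h1 q k d
    rw [← hτ] at h3
    rw [h3, if_neg e1, if_neg e2, one_mul, ← hd false, ← hd true]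
    simp only [Fin.succAbove_right_inj]
  simp only [key]
  rw [sum_two]
  split_ifs <;> simp [eval_comp]

lemma Imp.root_snd {A B : ℤ[X]} (h : Imp A B) {z : ℂ} (hz : z * (z - 1) * aeval z B = 0) :
    IsRoot z := by
  refine Rl.root (h.mul Imp.edge) (p := X * (X - 1) * B) (fun q => ?_) (by simpa using hz)
  rw [Fintype.sum_equiv (Equiv.boolArrowEquivProd (Fin q)) _
    (fun x => (if x.1 = x.2 then 0 else 1) * (if x.2 = x.2 then B.eval (q : ℤ) else 0))
    (fun τ => by by_cases h : τ false = τ true <;> simp [h]), Fintype.sum_prod_type]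
  simp only [if_true]
  have : ∀ a : Fin q, ∑ b : Fin q, (if a = b then 0 else 1) * B.eval (q : ℤ) =
      (q - 1) * B.eval (q : ℤ) := by
    intro a
    have h2 := sum_two a a 0 1 (B.eval (q : ℤ)) (B.eval (q : ℤ))
    simpa using h2
  simp only [this]
  simp [mul_assoc]

/-- a clique and one more vertex joined to the clique by gadgets -/
lemma clique {k : ℕ} (A B : Fin k → ℤ[X]) (h : ∀ i, Imp (A i) (B i)) {K : Type} [Field K]
    (f : K →+* ℂ) (x : K) (y : Fin k → K) (hy : ∀ i, aeval x (A i) = y i * aeval x (B i))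
    (h0 : x + ∑ i, (y i - 1) = 0) : IsRoot (f x) := by
  classical
  have key : ∀ s : Finset (Fin k), ∃ g : ℤ[X],
      (∀ (q : ℕ) (τ : Fin k → Fin q), Function.Injective τ →
        ∑ z : Fin q, ∏ i ∈ s, (if z = τ i then (A i).eval (q : ℤ) else (B i).eval (q : ℤ)) =
          g.eval (q : ℤ)) ∧
      aeval x g = (∏ i ∈ s, aeval x (B i)) * (x + ∑ i ∈ s, (y i - 1)) := by
    intro s
    induction s using Finset.induction_on with
    | empty => exact ⟨X, fun q τ _ => by simp, by simp⟩
    | insert a s ha ih =>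
      obtain ⟨g, g1, g2⟩ := ih
      refine ⟨B a * g + (A a - B a) * ∏ i ∈ s, B i, fun q τ hτ => ?_, ?_⟩
      · simp only [Finset.prod_insert ha]
        have e : ∀ z : Fin q, (if z = τ a then (A a).eval (q : ℤ) else (B a).eval (q : ℤ)) *
            ∏ i ∈ s, (if z = τ i then (A i).eval (q : ℤ) else (B i).eval (q : ℤ)) =
            (B a).eval (q : ℤ) *
              ∏ i ∈ s, (if z = τ i then (A i).eval (q : ℤ) else (B i).eval (q : ℤ)) +
            if z = τ a then ((A a).eval (q : ℤ) - (B a).eval (q : ℤ)) *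
              ∏ i ∈ s, (B i).eval (q : ℤ) else 0 := by
          intro z
          by_cases hz : z = τ a
          · have : ∏ i ∈ s, (if z = τ i then (A i).eval (q : ℤ) else (B i).eval (q : ℤ)) =
                ∏ i ∈ s, (B i).eval (q : ℤ) := by
              refine Finset.prod_congr rfl fun i hi => if_neg fun e => ha ?_
              rw [hτ (hz.symm.trans e)]; exact hi
            rw [this, if_pos hz, if_pos hz]; ring
          · rw [if_neg hz, if_neg hz, add_zero]
        simp only [e, Finset.sum_add_distrib, Finset.sum_ite_eq', Finset.mem_univ, if_true]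
        rw [← Finset.mul_sum, g1 q τ hτ]
        simp [eval_prod]
      · simp only [Finset.prod_insert ha, Finset.sum_insert ha, map_add, map_mul, map_sub,
          map_prod, g2, hy]
        ring
  obtain ⟨g, g1, g2⟩ := key Finset.univ
  have r1 : Rl (Fin k ⊕ Unit) (fun q τ => ∏ i : Fin k,
      if τ (Sum.inr ()) = τ (Sum.inl i) then (A i).eval (q : ℤ) else (B i).eval (q : ℤ)) :=
    Rl.prod _ fun i _ => (h i).at (by simp)
  have r2 : Rl (Fin k) (fun q τ => ∏ e ∈ Finset.univ.offDiag,
      if τ e.1 = τ e.2 then 0 else 1) :=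
    Rl.prod _ fun e he => Rl.edge (Finset.mem_offDiag.1 he).2.2
  refine Rl.root (r2.mul r1.sum) (p := descPochhammer ℤ k * g) (fun q => ?_) ?_
  · have e : ∀ τ : Fin k → Fin q, (∏ e ∈ Finset.univ.offDiag,
        if τ e.1 = τ e.2 then (0 : ℤ) else 1) * ∑ u : Unit → Fin q, ∏ i : Fin k,
        (if Sum.elim τ u (Sum.inr ()) = Sum.elim τ u (Sum.inl i) then (A i).eval (q : ℤ)
          else (B i).eval (q : ℤ)) = if Function.Injective τ then g.eval (q : ℤ) else 0 := by
      intro τ
      split_ifs with hτ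
      · rw [sum_unit, Finset.prod_eq_one, one_mul, ← g1 q τ hτ]
        · rfl
        · intro e he
          exact if_neg fun e' => (Finset.mem_offDiag.1 he).2.2 (hτ e')
      · simp only [Function.Injective, not_forall] at hτ
        obtain ⟨a, b, e, hab⟩ := hτ
        rw [mul_eq_zero]
        exact Or.inl (Finset.prod_eq_zero (i := (a, b)) (by simpa using hab) (if_pos e))
    simp only [e]
    rw [← Finset.sum_filter, Finset.sum_const, eval_mul, descPochhammer_eval_eq_descFactorial,
      nsmul_eq_mul, ← Fintype.card_subtype,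
      Fintype.card_congr (Equiv.subtypeInjectiveEquivEmbedding _ _), Fintype.card_embedding_eq]
    simp
  · have : aeval (f x) g = f (aeval x g) := by
      rw [aeval_def, aeval_def, hom_eval₂]
      congr 1
      exact RingHom.ext_int _ _
    rw [map_mul, this, g2, h0]
    simp

end Pool.Agent.P.MP_f55c5e_co.Ch
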