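import Mathlib

set_option autoImplicit false

open Polynomial

namespace Pool.Agent.P.MP_f55c5e_co.Ch

variable {ι : Type} [DecidableEq ι]

/-- weight of a colouring -/
noncomputable def wt {V C : Type} [DecidableEq C] (E : Finset ι) (g : ι → Sym2 V) (y : ι → ℝ)
    (c : V → C) : ℝ :=
  ∏ e ∈ E, if ((g e).map c).IsDiag then y e else 1

/-- weighted number of colourings -/
noncomputable def W {V : Type} [Fintype V] [DecidableEq V] (E : Finset ι) (g : ι → Sym2 V)
    (y : ι → ℝ) (q : ℕ) : ℝ :=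
  ∑ c : V → Fin q, wt E g y c

/-- the map that identifies `b` with `a` -/
def con {V : Type} [DecidableEq V] {a b : V} (h : a ≠ b) (x : V) : {x : V // x ≠ b} :=
  if hx : x = b then ⟨a, h⟩ else ⟨x, hx⟩

section
variable {V : Type} [DecidableEq V]

lemma con_of_ne {a b : V} (h : a ≠ b) {x : V} (hx : x ≠ b) : con h x = ⟨x, hx⟩ := dif_neg hx

lemma con_self {a b : V} (h : a ≠ b) : con h b = ⟨a, h⟩ := dif_pos rfl

lemma con_val {a b : V} (h : a ≠ b) (x : {x : V // x ≠ b}) : con h x.1 = x := con_of_ne h x.2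

lemma con_eq {a b : V} (h : a ≠ b) {x y : V} (e : con h x = con h y) :
    x = y ∨ s(x, y) = s(a, b) := by
  unfold con at e
  split_ifs at e with h1 h2 h2
  · exact Or.inl (h1.trans h2.symm)
  · obtain rfl : a = y := congrArg Subtype.val e
    exact Or.inr (by rw [h1, Sym2.eq_swap])
  · obtain rfl : x = a := congrArg Subtype.val e
    exact Or.inr (by rw [h2])
  · exact Or.inl (congrArg Subtype.val e)

lemma wt_comp {V' C : Type} [DecidableEq C] (E : Finset ι) (g : ι → Sym2 V) (y : ι → ℝ)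
    (f : V → V') (c : V' → C) : wt E (fun e => (g e).map f) y c = wt E g y (c ∘ f) := by
  simp only [wt, Sym2.map_map]

lemma wt_congr {C : Type} [DecidableEq C] {E : Finset ι} {g : ι → Sym2 V} {y : ι → ℝ}
    {c d : V → C} (h : ∀ e ∈ E, ∀ x ∈ g e, c x = d x) : wt E g y c = wt E g y d :=
  Finset.prod_congr rfl fun e he => by rw [Sym2.map_congr (h e he)]

lemma wt_perm {C : Type} [DecidableEq C] (E : Finset ι) (g : ι → Sym2 V) (y : ι → ℝ)
    (c : V → C) {p : C → C} (hp : Function.Injective p) : wt E g y (p ∘ c) = wt E g y c :=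
  Finset.prod_congr rfl fun e _ => by
    rw [← Sym2.map_map]
    simp only [Sym2.isDiag_map hp]

variable [Fintype V]

lemma card_con (b : V) : Fintype.card {x : V // x ≠ b} + 1 = Fintype.card V := by
  have : 0 < Fintype.card V := Fintype.card_pos_iff.2 ⟨b⟩
  simp only [ne_eq, Fintype.card_subtype_compl, Fintype.card_unique]
  omega

lemma W_empty (g : ι → Sym2 V) (y : ι → ℝ) (q : ℕ) : W ∅ g y q = q ^ Fintype.card V := by
  simp [W, wt]

lemma W_dc {E : Finset ι} {e : ι} (he : e ∉ E) {g : ι → Sym2 V} {a b : V} (hab : a ≠ b)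
    (hg : g e = s(a, b)) (y : ι → ℝ) (q : ℕ) :
    W (insert e E) g y q = W E g y q + (y e - 1) * W E (fun e => (g e).map (con hab)) y q := by
  have h1 : W E (fun e => (g e).map (con hab)) y q =
      ∑ c : V → Fin q, if c a = c b then wt E g y c else 0 := by
    unfold W
    refine Finset.sum_of_injOn (fun c => c ∘ con hab) ?_ (by simp) ?_ ?_
    · intro c _ d _ h
      funext x
      have := congrFun h x.1
      simpa only [Function.comp, con_val] using this
    · intro c _ hc
      refine if_neg fun h => hc ⟨fun x => c x.1, by simp, ?_⟩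
      funext x
      by_cases hx : x = b
      · simp only [Function.comp, hx, con_self, h]
      · simp only [Function.comp, con_of_ne hab hx]
    · intro c _
      rw [if_pos, wt_comp]
      simp only [Function.comp, con_self, con_of_ne hab hab]
  rw [h1, W, W, Finset.mul_sum, ← Finset.sum_add_distrib]
  refine Finset.sum_congr rfl fun c _ => ?_
  simp only [wt, Finset.prod_insert he, hg, Sym2.map_mk, Sym2.mk_isDiag_iff]
  split_ifs <;> ring

lemma W_loop {E : Finset ι} {e : ι} (he : e ∉ E) {g : ι → Sym2 V} (hg : (g e).IsDiag)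
    (y : ι → ℝ) (q : ℕ) : W (insert e E) g y q = y e * W E g y q := by
  rw [W, W, Finset.mul_sum]
  refine Finset.sum_congr rfl fun c _ => ?_
  simp only [wt, Finset.prod_insert he, if_pos (hg.map (f := c))]

lemma W_iso {E : Finset ι} {g : ι → Sym2 V} {a z : V} (h : a ≠ z) (hz : ∀ e ∈ E, z ∉ g e)
    (y : ι → ℝ) (q : ℕ) : W E g y q = q * W E (fun e => (g e).map (con h)) y q := by
  unfold W
  rw [Fintype.sum_equiv (Equiv.funSplitAt z (Fin q)) _
    (fun p => wt E (fun e => (g e).map (con h)) y p.2), Fintype.sum_prod_type]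
  · simp
  · intro c
    rw [wt_comp]
    refine wt_congr fun e he x hx => ?_
    have : x ≠ z := fun e' => hz e he (e' ▸ hx)
    simp [con_of_ne h this]

lemma sum_sym {q : ℕ} (F : (V → Fin q) → ℝ)
    (hF : ∀ (p : Equiv.Perm (Fin q)) (c : V → Fin q), F (p ∘ c) = F c) (w : V) (k : Fin q) :
    q * ∑ c : V → Fin q, (if c w = k then F c else 0) = ∑ c, F c := by
  have h1 : ∀ j : Fin q, ∑ c : V → Fin q, (if c w = j then F c else 0) =
      ∑ c : V → Fin q, (if c w = k then F c else 0) := by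
    intro j
    refine Fintype.sum_equiv ((Equiv.refl V).arrowCongr (Equiv.swap j k)) _ _ fun c => ?_
    have : ((Equiv.refl V).arrowCongr (Equiv.swap j k)) c = Equiv.swap j k ∘ c := rfl
    rw [this, hF]
    simp only [Function.comp, Equiv.swap_apply_eq_iff, Equiv.swap_apply_right]
  have h2 : ∑ c, F c = ∑ j : Fin q, ∑ c : V → Fin q, (if c w = j then F c else 0) := by
    rw [Finset.sum_comm]
    simp
  rw [h2]
  simp [h1]

lemma W_glue {E₁ E₂ : Finset ι} (hd : Disjoint E₁ E₂) {g : ι → Sym2 V} {w : V} {U : Set V}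
    (hw : w ∉ U) (h1 : ∀ e ∈ E₁, ∀ x ∈ g e, x ∈ U ∨ x = w) (h2 : ∀ e ∈ E₂, ∀ x ∈ g e, x ∉ U)
    (y : ι → ℝ) (q : ℕ) :
    q ^ Fintype.card V * W (E₁ ∪ E₂) g y q = W E₁ g y q * W E₂ g y q := by
  classical
  have s1 : ∀ (E : Finset ι) (k : Fin q),
      q * ∑ c : V → Fin q, (if c w = k then wt E g y c else 0) = W E g y q :=
    fun E k => sum_sym _ (fun p c => wt_perm E g y c p.injective) w k
  let T : (V → Fin q) × (V → Fin q) → (V → Fin q) × (V → Fin q) :=
    fun p => (U.piecewise p.1 p.2, U.piecewise p.2 p.1)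
  have hT : Function.Involutive T := by
    intro p
    refine Prod.ext (funext fun x => ?_) (funext fun x => ?_) <;>
      by_cases hx : x ∈ U <;> simp [T, hx]
  have key : ∑ c : V → Fin q, ∑ d : V → Fin q,
      (if d w = c w then wt E₁ g y c * wt E₂ g y d else 0) =
      ∑ c : V → Fin q, ∑ d : V → Fin q, (if d w = c w then wt (E₁ ∪ E₂) g y c else 0) := by
    rw [← Fintype.sum_prod_type', ← Fintype.sum_prod_type']
    refine Fintype.sum_equiv (hT.toPerm T) _ _ fun p => ?_
    have a1 : (hT.toPerm T p).1 = U.piecewise p.1 p.2 := rfl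
    have a2 : (hT.toPerm T p).2 = U.piecewise p.2 p.1 := rfl
    rw [a1, a2, Set.piecewise_eq_of_notMem _ _ _ hw, Set.piecewise_eq_of_notMem _ _ _ hw]
    by_cases h : p.2 w = p.1 w
    · rw [if_pos h, if_pos h.symm, wt, wt, wt, Finset.prod_union hd]
      congr 1
      · refine wt_congr fun e he x hx => ?_
        rcases h1 e he x hx with h' | rfl
        · rw [Set.piecewise_eq_of_mem _ _ _ h']
        · rw [Set.piecewise_eq_of_notMem _ _ _ hw, h]
      · exact wt_congr fun e he x hx => by rw [Set.piecewise_eq_of_notMem _ _ _ (h2 e he x hx)]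
    · rw [if_neg h, if_neg (Ne.symm h)]
  calc q ^ Fintype.card V * W (E₁ ∪ E₂) g y q
      = q * ∑ c : V → Fin q, ∑ d : V → Fin q, (if d w = c w then wt (E₁ ∪ E₂) g y c else 0) := by
        rw [W, Finset.mul_sum, Finset.mul_sum]
        refine Finset.sum_congr rfl fun c _ => ?_
        rw [sum_sym (fun _ => wt (E₁ ∪ E₂) g y c) (fun _ _ => rfl) w (c w)]
        simp
    _ = _ := by
        rw [← key, W, Finset.sum_mul, Finset.mul_sum]
        refine Finset.sum_congr rfl fun c _ => ?_
        rw [← s1 E₂ (c w), mul_left_comm, Finset.mul_sum (a := wt E₁ g y c)]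
        simp

end

lemma exists_poly (y : ι → ℝ) (E : Finset ι) : ∀ (V : Type) [Fintype V] [DecidableEq V]
    (g : ι → Sym2 V), ∃ p : ℝ[X], (∀ q : ℕ, p.eval (q : ℝ) = W E g y q) ∧
      p.natDegree ≤ Fintype.card V ∧
      ((∀ e ∈ E, ¬ (g e).IsDiag) → p.coeff (Fintype.card V) = 1) := by
  induction E using Finset.induction_on with
  | empty =>
    intro V _ _ g
    exact ⟨X ^ Fintype.card V, fun q => by simp [W_empty], by simp, by simp⟩
  | insert e E he ih =>
    intro V _ _ g
    obtain ⟨p, p1, p2, p3⟩ := ih V g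
    by_cases hg : (g e).IsDiag
    · refine ⟨C (y e) * p, fun q => by simp [W_loop he hg, p1],
        (natDegree_C_mul_le _ _).trans p2, fun h => absurd hg (h e (by simp))⟩
    · obtain ⟨a, b, hab⟩ : ∃ a b, g e = s(a, b) := by
        induction g e using Sym2.ind with
        | h a b => exact ⟨a, b, rfl⟩
      have hne : a ≠ b := by simpa [hab] using hg
      obtain ⟨r, r1, r2, -⟩ := ih _ (fun e => (g e).map (con hne))
      have hc := card_con b
      refine ⟨p + C (y e - 1) * r, fun q => by simp [W_dc he hne hab, p1, r1], ?_, fun h => ?_⟩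
      · exact (natDegree_add_le _ _).trans
          (max_le p2 ((natDegree_C_mul_le _ _).trans (by omega)))
      · rw [coeff_add, coeff_C_mul, p3 fun f hf => h f (by simp [hf]),
          coeff_eq_zero_of_natDegree_lt (by omega)]
        simp

variable {V : Type} [Fintype V] [DecidableEq V]

/-- the polynomial with values `W` -/
noncomputable def Z (E : Finset ι) (g : ι → Sym2 V) (y : ι → ℝ) : ℝ[X] :=
  (exists_poly y E V g).choose

lemma Z_eval (E : Finset ι) (g : ι → Sym2 V) (y : ι → ℝ) (q : ℕ) :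
    (Z E g y).eval (q : ℝ) = W E g y q := (exists_poly y E V g).choose_spec.1 q

lemma Z_monic {E : Finset ι} {g : ι → Sym2 V} (y : ι → ℝ) (h : ∀ e ∈ E, ¬ (g e).IsDiag) :
    (Z E g y).Monic :=
  monic_of_natDegree_le_of_coeff_eq_one _ (exists_poly y E V g).choose_spec.2.1
    ((exists_poly y E V g).choose_spec.2.2 h)

lemma poly_ext {p r : ℝ[X]} (h : ∀ q : ℕ, p.eval (q : ℝ) = r.eval (q : ℝ)) : p = r :=
  eq_of_infinite_eval_eq p r
    ((Set.infinite_range_of_injective Nat.cast_injective).mono (by rintro _ ⟨q, rfl⟩; exact h q))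

lemma Z_empty (g : ι → Sym2 V) (y : ι → ℝ) (x : ℝ) : (Z ∅ g y).eval x = x ^ Fintype.card V := by
  rw [poly_ext (p := Z ∅ g y) (r := X ^ Fintype.card V) fun q => by simp [Z_eval, W_empty]]
  simp

lemma Z_dc {E : Finset ι} {e : ι} (he : e ∈ E) {g : ι → Sym2 V} {a b : V} (hab : a ≠ b)
    (hg : g e = s(a, b)) (y : ι → ℝ) (x : ℝ) :
    (Z E g y).eval x = (Z (E.erase e) g y).eval x +
      (y e - 1) * (Z (E.erase e) (fun e => (g e).map (con hab)) y).eval x := by
  rw [poly_ext (p := Z E g y) (r := Z (E.erase e) g y +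
    C (y e - 1) * Z (E.erase e) (fun e => (g e).map (con hab)) y) fun q => ?_]
  · simp
  · conv_lhs => rw [← Finset.insert_erase he]
    simp [Z_eval, W_dc (Finset.notMem_erase e E) hab hg, -Finset.insert_erase]

lemma Z_iso {E : Finset ι} {g : ι → Sym2 V} {a z : V} (h : a ≠ z) (hz : ∀ e ∈ E, z ∉ g e)
    (y : ι → ℝ) (x : ℝ) :
    (Z E g y).eval x = x * (Z E (fun e => (g e).map (con h)) y).eval x := by
  rw [poly_ext (p := Z E g y) (r := X * Z E (fun e => (g e).map (con h)) y) fun q => ?_]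
  · simp
  · simp [Z_eval, W_iso h hz]

lemma Z_glue {E₁ E₂ : Finset ι} (hd : Disjoint E₁ E₂) {g : ι → Sym2 V} {w : V} {U : Set V}
    (hw : w ∉ U) (h1 : ∀ e ∈ E₁, ∀ x ∈ g e, x ∈ U ∨ x = w) (h2 : ∀ e ∈ E₂, ∀ x ∈ g e, x ∉ U)
    (y : ι → ℝ) (x : ℝ) :
    x ^ Fintype.card V * (Z (E₁ ∪ E₂) g y).eval x = (Z E₁ g y).eval x * (Z E₂ g y).eval x := by
  have := poly_ext (p := X ^ Fintype.card V * Z (E₁ ∪ E₂) g y) (r := Z E₁ g y * Z E₂ g y)
    fun q => by simp [Z_eval, W_glue hd hw h1 h2]
  simpa using congrArg (eval x) this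

lemma Z_congr {E : Finset ι} {g g' : ι → Sym2 V} {y y' : ι → ℝ}
    (hg : ∀ e ∈ E, g e = g' e) (hy : ∀ e ∈ E, y e = y' e) : Z E g y = Z E g' y' :=
  poly_ext fun q => by
    rw [Z_eval, Z_eval]
    exact Finset.sum_congr rfl fun c _ => Finset.prod_congr rfl fun e he => by
      rw [hg e he, hy e he]

lemma Z_par {E : Finset ι} {e f : ι} (he : e ∈ E) (hf : f ∈ E) (hef : e ≠ f) {g : ι → Sym2 V}
    (hg : g e = g f) (y : ι → ℝ) :
    Z E g y = Z (E.erase f) g (Function.update y e (y e * y f)) :=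
  poly_ext fun q => by
    rw [Z_eval, Z_eval]
    refine Finset.sum_congr rfl fun c _ => ?_
    have he' : e ∈ E.erase f := Finset.mem_erase.2 ⟨hef, he⟩
    unfold wt
    rw [← Finset.mul_prod_erase _ _ hf, ← Finset.mul_prod_erase _ _ he',
      ← Finset.mul_prod_erase _ _ he', ← mul_assoc, Function.update_self, hg]
    congr 1
    · split_ifs <;> ring
    · exact Finset.prod_congr rfl fun i hi => by
        rw [Function.update_of_ne (Finset.ne_of_mem_erase hi)]

lemma Z_ser {E : Finset ι} {e f : ι} (he : e ∈ E) (hf : f ∈ E) (hef : f ≠ e) {g : ι → Sym2 V}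
    {z a b : V} (ha : a ≠ z) (hb : b ≠ z) (hab : a ≠ b) (ge : g e = s(a, z)) (gf : g f = s(b, z))
    (hz : ∀ i ∈ E, z ∈ g i → i = e ∨ i = f) (y : ι → ℝ) (x η : ℝ)
    (hη : η * (x - 2 + y e + y f) = x - 1 + y e * y f) :
    (Z E g y).eval x = (x - 2 + y e + y f) *
      (Z (E.erase e) (fun i => (g i).map (con ha)) (Function.update y f η)).eval x := by
  have hf' : f ∈ E.erase e := Finset.mem_erase.2 ⟨hef, hf⟩
  have hz' : ∀ i ∈ (E.erase e).erase f, z ∉ g i := by
    intro i hi h
    have h1 := Finset.mem_erase.1 hi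
    have h2 := Finset.mem_erase.1 h1.2
    rcases hz i h2.2 h with h | h
    · exact h2.1 h
    · exact h1.1 h
  have hne : (⟨b, hb⟩ : {x // x ≠ z}) ≠ ⟨a, ha⟩ := fun h => hab (congrArg Subtype.val h).symm
  have gf' : (fun i => (g i).map (con ha)) f = s(⟨b, hb⟩, ⟨a, ha⟩) := by
    simp only [gf, Sym2.map_mk, con_self, con_of_ne ha hb]
  have e1 : Z ((E.erase e).erase f) (fun i => (g i).map (con hb)) y =
      Z ((E.erase e).erase f) (fun i => (g i).map (con ha)) y := by
    refine Z_congr (fun i hi => Sym2.map_congr fun x hx => ?_) fun _ _ => rfl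
    have : x ≠ z := fun e' => hz' i hi (e' ▸ hx)
    rw [con_of_ne hb this, con_of_ne ha this]
  have e2 : ∀ i ∈ (E.erase e).erase f, Function.update y f η i = y i :=
    fun i hi => Function.update_of_ne (Finset.ne_of_mem_erase hi) _ _
  rw [Z_dc he ha ge, Z_dc hf' hb gf, Z_iso ha hz', e1, Z_dc hf' hne gf' y,
    Z_dc hf' hne gf' (Function.update y f η), Z_congr (fun _ _ => rfl) e2,
    Z_congr (fun _ _ => rfl) e2, Function.update_self]
  generalize (Z ((E.erase e).erase f) (fun i => (g i).map (con ha)) y).eval x = D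
  generalize (Z ((E.erase e).erase f)
    (fun i => ((fun i => (g i).map (con ha)) i).map (con hne)) y).eval x = N
  linear_combination -N * hη

end Pool.Agent.P.MP_f55c5e_co.Ch
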