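import Mathlib
import Pool.Agent.P.MP_f55c5e_co.Ch.Gad
import Pool.Agent.P.MP_f55c5e_co.Ch.Zp
import Pool.Agent.P.MP_f55c5e_co.Ch.Frag

set_option autoImplicit false

open Polynomial

namespace Pool.Agent.P.MP_f55c5e_co.Ch

variable {ι : Type} [DecidableEq ι]

/-- adjacency -/
def Adj {V : Type} (E : Finset ι) (g : ι → Sym2 V) (a b : V) : Prop := ∃ e ∈ E, g e = s(a, b)

/-- a set of edge weights that is closed under the series and parallel reductions -/
structure Good (x ε : ℝ) (I : Set ℝ) : Prop where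
  zero : (0 : ℝ) ∈ I
  lt : ∀ a ∈ I, a < 1
  mul : ∀ a ∈ I, ∀ b ∈ I, a * b ∈ I
  den : ∀ a ∈ I, ∀ b ∈ I, x - 2 + a + b < 0
  ser : ∀ a ∈ I, ∀ b ∈ I, (x - 1 + a * b) / (x - 2 + a + b) ∈ I
  base : ∀ a ∈ I, ∀ b ∈ I, 0 < ε * (x * (x - 1 + a * b))

omit [DecidableEq ι] in
lemma Adj.symm {V : Type} {E : Finset ι} {g : ι → Sym2 V} (a b : V) (h : Adj E g a b) :
    Adj E g b a := by
  obtain ⟨e, he, h⟩ := h
  exact ⟨e, he, h.trans Sym2.eq_swap⟩

lemma sym2_ex {V : Type} (z : Sym2 V) : ∃ a b, z = s(a, b) := by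
  induction z using Sym2.ind with
  | h a b => exact ⟨a, b, rfl⟩

lemma con_surj {V : Type} [DecidableEq V] {a b : V} (h : a ≠ b) : Function.Surjective (con h) :=
  fun x => ⟨x.1, con_val h x⟩

lemma con_data {V : Type} [DecidableEq V] {E : Finset ι} {g : ι → Sym2 V} {e : ι} {a b : V}
    (hab : a ≠ b) (ge : g e = s(a, b)) (he : e ∈ E) (hl : ∀ e ∈ E, ¬ (g e).IsDiag)
    (hp : ∀ e ∈ E, ∀ f ∈ E, g e = g f → e = f) (hn : NoSep (Adj E g))
    (h2 : NoSep2 (Adj E g) a b) :
    (∀ i ∈ E.erase e, ¬ ((g i).map (con hab)).IsDiag) ∧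
      NoSep (Adj (E.erase e) fun i => (g i).map (con hab)) := by
  constructor
  · intro i hi hd
    obtain ⟨h1, h3⟩ := Finset.mem_erase.1 hi
    obtain ⟨c, d, hcd⟩ := sym2_ex (g i)
    rw [hcd, Sym2.map_mk, Sym2.mk_isDiag_iff] at hd
    rcases con_eq hab hd with h | h
    · exact hl i h3 (by rw [hcd, h]; simp)
    · exact h1 (hp i h3 e he (by rw [hcd, h, ge]))
  · have huv : con hab a = con hab b := by rw [con_self, con_of_ne hab hab]
    refine noSep_map hn h2 (con_surj hab) huv (fun x y h => con_eq hab h) ?_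
    rintro x y ⟨i, hi, gi⟩ hxy
    refine ⟨i, Finset.mem_erase.2 ⟨?_, hi⟩, by simp only [gi, Sym2.map_mk]⟩
    rintro rfl
    rcases Sym2.eq_iff.1 (gi.symm.trans ge) with h | h
    · exact hxy (by rw [h.1, h.2, huv])
    · exact hxy (by rw [h.1, h.2, huv])

theorem sign_block {x ε : ℝ} {I : Set ℝ} (hI : Good x ε I) (m : ℕ) :
    ∀ (V : Type) [Fintype V] [DecidableEq V] (E : Finset ι) (g : ι → Sym2 V) (y : ι → ℝ),
      E.card = m + 1 → (∀ e ∈ E, ¬ (g e).IsDiag) → NoSep (Adj E g) → (∀ e ∈ E, y e ∈ I) →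
      (m = 0 → ∀ e ∈ E, 0 < ε * (x * (x - 1 + y e))) →
      0 < ε * ((-1) ^ Fintype.card V * (Z E g y).eval x) := by
  induction m with
  | zero =>
    intro V _ _ E g y hc hl hn _ hb
    obtain ⟨e, rfl⟩ := Finset.card_eq_one.1 hc
    obtain ⟨a, b, ge⟩ := sym2_ex (g e)
    have hab : a ≠ b := by simpa [ge] using hl e (by simp)
    have hV : Fintype.card V = 2 := by
      rw [← Finset.card_univ, Finset.card_eq_two]
      refine ⟨a, b, hab, ?_⟩
      ext z
      simp only [Finset.mem_univ, Finset.mem_insert, Finset.mem_singleton, true_iff]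
      by_contra hz
      push Not at hz
      obtain ⟨c, rfl, d, -, -, i, hi, gi⟩ := hn a {z} ⟨z, rfl⟩ hz.1.symm ⟨b, hz.2.symm, hab.symm⟩
      obtain rfl := Finset.mem_singleton.1 hi
      rcases Sym2.eq_iff.1 (gi.symm.trans ge) with h | h
      · exact hz.1 h.1
      · exact hz.2 h.1
    have h1 : Fintype.card {x // x ≠ b} = 1 := by have := card_con b; omega
    rw [Z_dc (Finset.mem_singleton_self e) hab ge, Finset.erase_singleton, Z_empty, Z_empty, hV, h1]
    convert hb rfl e (by simp) using 2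
    ring
  | succ m ih =>
    intro V _ _ E g y hc hl hn hy _
    have hce : ∀ e ∈ E, (E.erase e).card = m + 1 := fun e he => by
      rw [Finset.card_erase_of_mem he, hc]; rfl
    by_cases hp : ∃ e ∈ E, ∃ f ∈ E, g e = g f ∧ e ≠ f
    · obtain ⟨e, he, f, hf, gef, hef⟩ := hp
      have he' : e ∈ E.erase f := Finset.mem_erase.2 ⟨hef, he⟩
      rw [Z_par he hf hef gef]
      refine ih V _ g _ (hce f hf) (fun i hi => hl i (Finset.mem_of_mem_erase hi))
        (hn.mono ?_) (fun i hi => ?_) fun h0 i hi => ?_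
      · rintro a b ⟨i, hi, gi⟩
        by_cases h : i = f
        · exact ⟨e, he', by rw [gef, ← h, gi]⟩
        · exact ⟨i, Finset.mem_erase.2 ⟨h, hi⟩, gi⟩
      · by_cases h : i = e
        · rw [h, Function.update_self]; exact hI.mul _ (hy e he) _ (hy f hf)
        · rw [Function.update_of_ne h]; exact hy i (Finset.mem_of_mem_erase hi)
      · have h1 := hce f hf
        rw [h0] at h1
        rw [Finset.card_le_one.1 h1.le i hi e he', Function.update_self]
        exact hI.base _ (hy e he) _ (hy f hf)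
    push Not at hp
    have hirr : ∀ a, ¬ Adj E g a a := by
      rintro a ⟨i, hi, gi⟩
      exact hl i hi (by simp [gi])
    have hne : ∀ {a b}, Adj E g a b → a ≠ b := fun {a b} h e => hirr a (e ▸ h)
    have h3 : ∀ a b : V, ∃ c, c ≠ a ∧ c ≠ b := by
      intro a b
      by_contra h
      push Not at h
      obtain ⟨e, he, f, hf, hef⟩ := Finset.one_lt_card.1 (show 1 < E.card by omega)
      have : ∀ i ∈ E, g i = s(a, b) := by
        intro i hi
        obtain ⟨c, d, gi⟩ := sym2_ex (g i)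
        have hcd : c ≠ d := hne ⟨i, hi, gi⟩
        rw [gi, Sym2.eq_iff]
        by_cases c1 : c = a
        · exact Or.inl ⟨c1, h d fun e => hcd (c1.trans e.symm)⟩
        · refine Or.inr ⟨h c c1, ?_⟩
          by_contra d1
          exact hcd ((h c c1).trans (h d d1).symm)
      exact hef (hp e he f hf ((this e he).trans (this f hf).symm))
    have h2 : ∀ z a : V, ∃ c, Adj E g z c ∧ c ≠ a := by
      intro z a
      have aux : ∀ w, w ≠ z → ∃ c, Adj E g z c ∧ c ≠ w := by
        intro w hw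
        obtain ⟨c, rfl, d, -, d1, d2⟩ := hn w {z} ⟨z, rfl⟩ hw (h3 z w)
        exact ⟨d, d2, d1⟩
      by_cases h : a = z
      · obtain ⟨w, hw, -⟩ := h3 z z
        obtain ⟨c, hc, -⟩ := aux w hw
        exact ⟨c, hc, h ▸ (hne hc).symm⟩
      · exact aux a h
    obtain ⟨e₀, he₀⟩ := Finset.card_pos.1 (show 0 < E.card by omega)
    obtain ⟨z₀, -, -⟩ := sym2_ex (g e₀)
    have hm : m ≠ 0 := by
      obtain ⟨a, ⟨e, he, ge⟩, -⟩ := h2 z₀ z₀
      obtain ⟨b, ⟨f, hf, gf⟩, hb⟩ := h2 z₀ a
      obtain ⟨c, ⟨i, hi, gi⟩, hc'⟩ := h2 a z₀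
      have a1 : z₀ ≠ a := hne ⟨e, he, ge⟩
      have : 2 < E.card := by
        refine Finset.two_lt_card_iff.2 ⟨e, f, i, he, hf, hi, ?_, ?_, ?_⟩
        · rintro rfl
          rcases Sym2.eq_iff.1 (ge.symm.trans gf) with h | h
          · exact hb h.2.symm
          · exact a1 h.2.symm
        · rintro rfl
          rcases Sym2.eq_iff.1 (ge.symm.trans gi) with h | h
          · exact a1 h.1
          · exact hc' h.1.symm
        · rintro rfl
          rcases Sym2.eq_iff.1 (gf.symm.trans gi) with h | h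
          · exact a1 h.1
          · exact hc' h.1.symm
      omega
    by_cases hd : ∀ z a b, ∃ c, Adj E g z c ∧ c ≠ a ∧ c ≠ b
    · have : Nonempty V := ⟨z₀⟩
      obtain ⟨u, v, huv, n1, n2⟩ := frag Adj.symm hirr hn hd
      have hab := hne huv
      obtain ⟨e, he, ge⟩ := huv
      obtain ⟨c1, c2⟩ := con_data hab ge he hl hp hn n2
      have i1 := ih V _ g y (hce e he) (fun i hi => hl i (Finset.mem_of_mem_erase hi))
        (n1.mono (by
          rintro a b ⟨⟨i, hi, gi⟩, h⟩
          exact ⟨i, Finset.mem_erase.2 ⟨fun e' => h (by rw [← gi, e', ge]), hi⟩, gi⟩))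
        (fun i hi => hy i (Finset.mem_of_mem_erase hi)) (fun h => (hm h).elim)
      have i2 := ih _ _ _ y (hce e he) c1 c2
        (fun i hi => hy i (Finset.mem_of_mem_erase hi)) (fun h => (hm h).elim)
      rw [Z_dc he hab ge]
      rw [← card_con v, pow_succ] at i1 ⊢
      nlinarith [mul_pos (sub_pos.2 (hI.lt _ (hy e he))) i2]
    · push Not at hd
      obtain ⟨z, a', b', hd⟩ := hd
      obtain ⟨a, ha, -⟩ := h2 z z
      obtain ⟨b, hb, hba⟩ := h2 z a
      have hz : ∀ c, Adj E g z c → c = a ∨ c = b := by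
        intro c hc
        have k1 := hd a ha
        have k2 := hd b hb
        have k3 := hd c hc
        by_cases c1 : c = a' <;> by_cases c2 : a = a' <;> by_cases c3 : b = a'
        · exact Or.inl (c1.trans c2.symm)
        · exact Or.inl (c1.trans c2.symm)
        · exact Or.inr (c1.trans c3.symm)
        · exact (hba ((k2 c3).trans (k1 c2).symm)).elim
        · exact (hba (c3.trans c2.symm)).elim
        · exact Or.inr ((k3 c1).trans (k2 c3).symm)
        · exact Or.inl ((k3 c1).trans (k1 c2).symm)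
        · exact Or.inl ((k3 c1).trans (k1 c2).symm)
      have az := (hne ha).symm
      have bz := (hne hb).symm
      obtain ⟨e, he, ge⟩ := Adj.symm _ _ ha
      obtain ⟨f, hf, gf⟩ := Adj.symm _ _ hb
      have hfe : f ≠ e := by
        rintro rfl
        rcases Sym2.eq_iff.1 (ge.symm.trans gf) with h | h
        · exact hba h.1.symm
        · exact az h.1
      have hz' : ∀ i ∈ E, z ∈ g i → i = e ∨ i = f := by
        intro i hi h
        obtain ⟨c, gi⟩ := Sym2.mem_iff_exists.1 h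
        rcases hz c ⟨i, hi, gi⟩ with rfl | rfl
        · exact Or.inl (hp i hi e he (by rw [gi, ge, Sym2.eq_swap]))
        · exact Or.inr (hp i hi f hf (by rw [gi, gf, Sym2.eq_swap]))
      obtain ⟨c1, c2⟩ := con_data az ge he hl hp hn (noSep2_of_deg Adj.symm hn az hz)
      have hden := hI.den _ (hy e he) _ (hy f hf)
      have i2 := ih _ _ _ (Function.update y f ((x - 1 + y e * y f) / (x - 2 + y e + y f)))
        (hce e he) c1 c2 (fun i hi => by
          by_cases h : i = f
          · rw [h, Function.update_self]; exact hI.ser _ (hy e he) _ (hy f hf)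
          · rw [Function.update_of_ne h]; exact hy i (Finset.mem_of_mem_erase hi))
        (fun h => (hm h).elim)
      rw [Z_ser he hf hfe az bz hba.symm ge gf hz' y x _ (div_mul_cancel₀ _ hden.ne),
        ← card_con z, pow_succ]
      nlinarith [mul_pos (neg_pos.2 hden) i2]

theorem Z_ne_zero {x ε : ℝ} {I : Set ℝ} (hI : Good x ε I) (n : ℕ) :
    ∀ (V : Type) [Fintype V] [DecidableEq V] (E : Finset ι) (g : ι → Sym2 V),
      Fintype.card V + E.card = n → (∀ e ∈ E, ¬ (g e).IsDiag) →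
      (Z E g fun _ => 0).eval x ≠ 0 := by
  have hb := hI.base 0 hI.zero 0 hI.zero
  have hx : x ≠ 0 := by rintro rfl; simp at hb
  induction n using Nat.strong_induction_on with
  | h n ih =>
    intro V _ _ E g hc hl
    classical
    rcases E.eq_empty_or_nonempty with rfl | hE
    · rw [Z_empty]; exact pow_ne_zero _ hx
    by_cases hiso : ∃ z, ∀ e ∈ E, z ∉ g e
    · obtain ⟨z, hz⟩ := hiso
      obtain ⟨e, he⟩ := hE
      obtain ⟨a, b, ge⟩ := sym2_ex (g e)
      have az : a ≠ z := fun h => hz e he (by simp [ge, h])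
      rw [Z_iso az hz]
      refine mul_ne_zero hx (ih _ (by have := card_con z; omega) _ E _ rfl fun i hi hd => ?_)
      obtain ⟨c, d, gi⟩ := sym2_ex (g i)
      rw [gi, Sym2.map_mk, Sym2.mk_isDiag_iff] at hd
      rcases con_eq az hd with h | h
      · exact hl i hi (by rw [gi, h]; simp)
      · exact hz i hi (by rw [gi, h]; simp)
    push Not at hiso
    by_cases hn : NoSep (Adj E g)
    · obtain ⟨m, hm⟩ := Nat.exists_eq_succ_of_ne_zero (Finset.card_pos.2 hE).ne'
      have := sign_block hI m V E g (fun _ => 0) hm hl hn (fun _ _ => hI.zero)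
        (fun _ _ _ => by simpa using hb)
      intro h
      simp [h] at this
    unfold NoSep at hn
    push Not at hn
    obtain ⟨w, U, ⟨u, hu⟩, hw, ⟨v, v1, v2⟩, hU⟩ := hn
    let P : ι → Prop := fun e => ∀ x ∈ g e, x ∈ U ∨ x = w
    have h2 : ∀ e ∈ E.filter (fun e => ¬ P e), ∀ x ∈ g e, x ∉ U := by
      intro e he c hc cU
      obtain ⟨he, hP⟩ := Finset.mem_filter.1 he
      obtain ⟨d, gi⟩ := Sym2.mem_iff_exists.1 hc
      refine hP fun t ht => ?_
      rw [gi, Sym2.mem_iff] at ht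
      rcases ht with rfl | rfl
      · exact Or.inl cU
      · by_contra h
        exact hU c cU t (not_or.1 h).1 (not_or.1 h).2 ⟨e, he, gi⟩
    have key := Z_glue (Finset.disjoint_filter_filter_not E E P) hw
      (fun e he => (Finset.mem_filter.1 he).2) h2 (fun _ => 0) x
    rw [Finset.filter_union_filter_not_eq] at key
    have c1 : (E.filter P).card < E.card := by
      obtain ⟨e, he, h⟩ := hiso v
      exact Finset.card_lt_card (Finset.filter_ssubset.2 ⟨e, he, fun hP => (hP v h).elim v1 v2⟩)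
    have c2 : (E.filter fun e => ¬ P e).card < E.card := by
      obtain ⟨e, he, h⟩ := hiso u
      exact Finset.card_lt_card (Finset.filter_ssubset.2
        ⟨e, he, fun hP => h2 e (Finset.mem_filter.2 ⟨he, hP⟩) u h hu⟩)
    intro h
    rw [h, mul_zero] at key
    exact mul_ne_zero
      (ih _ (by omega) V _ g rfl fun e he => hl e (Finset.mem_filter.1 he).1)
      (ih _ (by omega) V _ g rfl fun e he => hl e (Finset.mem_filter.1 he).1) key.symm

lemma good_neg {x : ℝ} (hx : x < 0) : Good x 1 (Set.Ico 0 1) where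
  zero := by simp
  lt := fun a ha => ha.2
  mul := fun a ha b hb => ⟨mul_nonneg ha.1 hb.1, by nlinarith [ha.1, ha.2, hb.1, hb.2]⟩
  den := fun a ha b hb => by linarith [ha.2, hb.2]
  ser := fun a ha b hb => by
    have h : x - 2 + a + b < 0 := by linarith [ha.2, hb.2]
    refine ⟨div_nonneg_of_nonpos (by nlinarith [ha.1, ha.2, hb.1, hb.2]) h.le, ?_⟩
    rw [div_lt_one_of_neg h]
    nlinarith [mul_pos (sub_pos.2 ha.2) (sub_pos.2 hb.2)]
  base := fun a ha b hb => by
    rw [one_mul]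
    exact mul_pos_of_neg_of_neg hx (by nlinarith [ha.1, ha.2, hb.1, hb.2])

lemma good_mid {x : ℝ} (h0 : 0 < x) (h1 : x < 1) : Good x (-1) (Set.Ico 0 (1 - x)) where
  zero := ⟨le_rfl, by linarith⟩
  lt := fun a ha => by linarith [ha.2]
  mul := fun a ha b hb => ⟨mul_nonneg ha.1 hb.1, by nlinarith [ha.1, ha.2, hb.1, hb.2]⟩
  den := fun a ha b hb => by linarith [ha.2, hb.2]
  ser := fun a ha b hb => by
    have h : x - 2 + a + b < 0 := by linarith [ha.2, hb.2]
    refine ⟨div_nonneg_of_nonpos (by nlinarith [ha.1, ha.2, hb.1, hb.2]) h.le, ?_⟩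
    rw [div_lt_iff_of_neg h]
    nlinarith [mul_pos (sub_pos.2 ha.2) (sub_pos.2 hb.2)]
  base := fun a ha b hb => by
    have : x - 1 + a * b < 0 := by nlinarith [ha.1, ha.2, hb.1, hb.2]
    nlinarith

lemma good_top {x : ℝ} (h0 : 1 < x) (h1 : x ≤ 32 / 27) : ∃ I, Good x 1 I := by
  obtain ⟨t, ⟨t0, t1⟩, ht⟩ : x - 1 ∈ (fun t : ℝ => t - t ^ 2 - t ^ 3) '' Set.Icc 0 (1 / 3) :=
    intermediate_value_Icc (by norm_num) (by fun_prop) ⟨by simpa using h0.le, by
      norm_num; linarith⟩
  simp only at ht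
  have t0' : 0 < t := lt_of_le_of_ne t0 (by rintro rfl; norm_num at ht; linarith)
  obtain rfl : x = 1 + t - t ^ 2 - t ^ 3 := by linarith
  have t2 : t ^ 2 ≤ t / 3 := by nlinarith
  have t3 : t ^ 3 ≤ t / 9 := by nlinarith
  have t4 : 0 < t ^ 3 := by positivity
  have hlow : ∀ a ∈ Set.Icc (-t) (t ^ 2), ∀ b ∈ Set.Icc (-t) (t ^ 2), -t ^ 3 ≤ a * b := by
    intro a ha b hb
    rcases le_total 0 a with h | h
    · nlinarith [mul_nonneg h (sub_nonneg.2 hb.1), mul_nonneg t0 (sub_nonneg.2 ha.2)]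
    · nlinarith [mul_nonneg (neg_nonneg.2 h) (sub_nonneg.2 hb.2),
        mul_nonneg (sq_nonneg t) (sub_nonneg.2 ha.1)]
  have hden : ∀ a ∈ Set.Icc (-t) (t ^ 2), ∀ b ∈ Set.Icc (-t) (t ^ 2),
      1 + t - t ^ 2 - t ^ 3 - 2 + a + b < 0 := fun a ha b hb => by linarith [ha.2, hb.2]
  refine ⟨Set.Icc (-t) (t ^ 2), ⟨by linarith, sq_nonneg t⟩, fun a ha => by linarith [ha.2],
    fun a ha b hb => ⟨by linarith [hlow a ha b hb], ?_⟩, hden, fun a ha b hb => ⟨?_, ?_⟩,
    fun a ha b hb => ?_⟩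
  · have a1 : |a| ≤ t := abs_le.2 ⟨ha.1, by linarith [ha.2]⟩
    have a2 : |b| ≤ t := abs_le.2 ⟨hb.1, by linarith [hb.2]⟩
    calc a * b ≤ |a| * |b| := by rw [← abs_mul]; exact le_abs_self _
      _ ≤ t * t := mul_le_mul a1 a2 (abs_nonneg _) t0
      _ = t ^ 2 := by ring
  · rw [le_div_iff_of_neg (hden a ha b hb)]
    have : (a + t) * (b + t) ≤ (t ^ 2 + t) * (t ^ 2 + t) :=
      mul_le_mul (by linarith [ha.2]) (by linarith [hb.2]) (by linarith [hb.1]) (by positivity)
    nlinarith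
  · exact (div_nonpos_of_nonneg_of_nonpos (by linarith [hlow a ha b hb])
      (hden a ha b hb).le).trans (sq_nonneg t)
  · rw [one_mul]
    exact mul_pos (by linarith) (by linarith [hlow a ha b hb])

theorem nec {α : ℂ} (h : IsRoot α) : IsIntegral ℤ α ∧
    ∀ β : ℝ, aeval (β : ℂ) (minpoly ℚ α) = 0 → β = 0 ∨ β = 1 ∨ 32 / 27 < β := by
  classical
  obtain ⟨m, G, p, hp, hα⟩ := h
  have hl : ∀ e ∈ G.edgeFinset, ¬ (id e : Sym2 (Fin m)).IsDiag :=
    fun e he => G.not_isDiag_of_mem_edgeFinset he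
  have hZ : p.map (algebraMap ℤ ℝ) = Z G.edgeFinset id fun _ => 0 := by
    refine poly_ext fun q => ?_
    have h1 : (p.map (algebraMap ℤ ℝ)).eval (q : ℝ) = ((p.eval (q : ℤ) : ℤ) : ℝ) := by
      have := eval_map_apply (p := p) (algebraMap ℤ ℝ) (q : ℤ)
      simpa using this
    rw [h1, hp, card_col, Z_eval, W]
    push_cast
    refine Finset.sum_congr rfl fun c _ => ?_
    by_cases hc : Ok G.Adj c
    · rw [ind_pos hc, wt, Finset.prod_eq_one, Int.cast_one]
      intro e he
      obtain ⟨a, b, rfl⟩ := sym2_ex e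
      exact if_neg (by simpa using hc a b (by simpa using he))
    · rw [ind_neg hc, Int.cast_zero]
      unfold Ok at hc
      push Not at hc
      obtain ⟨a, b, hab, e⟩ := hc
      symm
      unfold wt
      exact Finset.prod_eq_zero (i := s(a, b)) (by simpa using hab) (if_pos (by simpa using e))
  have hm : p.Monic :=
    monic_of_injective (algebraMap ℤ ℝ).injective_int (hZ ▸ Z_monic _ hl)
  refine ⟨⟨p, hm, hα⟩, fun β hβ => ?_⟩
  have h1 : aeval (β : ℂ) p = 0 := by
    have h2 : minpoly ℚ α ∣ p.map (algebraMap ℤ ℚ) :=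
      minpoly.dvd ℚ α (by rw [aeval_map_algebraMap]; exact hα)
    have := aeval_eq_zero_of_dvd_aeval_eq_zero h2 hβ
    rwa [aeval_map_algebraMap] at this
  have h2 : (Z G.edgeFinset id fun _ => 0).eval β = 0 := by
    rw [← hZ, eval_map_algebraMap]
    have := aeval_algebraMap_apply ℂ β p
    rw [Complex.coe_algebraMap, h1] at this
    exact_mod_cast this.symm
  by_contra hc
  push Not at hc
  rcases lt_or_gt_of_ne hc.1 with h3 | h3
  · exact Z_ne_zero (good_neg h3) _ _ _ _ rfl hl h2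
  rcases lt_or_gt_of_ne hc.2.1 with h4 | h4
  · exact Z_ne_zero (good_mid h3 h4) _ _ _ _ rfl hl h2
  · obtain ⟨I, hI⟩ := good_top h4 hc.2.2
    exact Z_ne_zero hI _ _ _ _ rfl hl h2

end Pool.Agent.P.MP_f55c5e_co.Ch
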