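import Mathlib
import Pool.Agent.P.MP_f55c5e_co.Ch.Gad
import Pool.Agent.P.MP_f55c5e_co.Ch.Cone

set_option autoImplicit false

open Polynomial Filter Topology

namespace Pool.Agent.P.MP_f55c5e_co.Ch

lemma hom_aeval {K L : Type} [CommRing K] [CommRing L] (g : K →+* L) (x : K) (p : ℤ[X]) :
    g (aeval x p) = aeval (g x) p := by
  rw [aeval_def, aeval_def, hom_eval₂]
  congr 1
  exact RingHom.ext_int _ _

/-- some gadget is expanding at `Q` -/
def Big (Q : ℂ) : Prop := ∃ A B, Imp A B ∧ ‖aeval Q B‖ < ‖aeval Q A‖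

lemma big_step {Q : ℂ} (hQ : Q ≠ 1) (h : Big (Q - 1)) : Big Q := by
  obtain ⟨A, B, hI, hlt⟩ := h
  have hA : 0 < ‖aeval (Q - 1) A‖ := (norm_nonneg _).trans_lt hlt
  have h1 : 0 < ‖Q - 1‖ := norm_pos_iff.2 (sub_ne_zero.2 hQ)
  have t := (tendsto_pow_atTop_nhds_zero_of_lt_one (div_nonneg (norm_nonneg _) hA.le)
    ((div_lt_one hA).2 hlt)).const_mul ‖Q - 2‖
  rw [mul_zero] at t
  obtain ⟨N, hN⟩ := (t.eventually (gt_mem_nhds h1)).exists
  refine ⟨_, _, (hI.pow N).join, ?_⟩
  rw [div_pow, ← mul_div_assoc, div_lt_iff₀ (pow_pos hA N)] at hN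
  simpa [aeval_comp, map_ofNat] using hN

lemma path_pair (Q : ℂ) (s : ℕ) : ∃ A B, Imp A B ∧
    Q * aeval Q A = (-1) ^ (s + 1) * ((1 - Q) ^ (s + 1) - (1 - Q)) ∧
    Q * aeval Q B = (-1) ^ (s + 1) * ((1 - Q) ^ (s + 1) - 1) := by
  induction s with
  | zero => exact ⟨_, _, Imp.edge, by simp, by simp⟩
  | succ s ih =>
    obtain ⟨A, B, hI, h1, h2⟩ := ih
    refine ⟨_, _, hI.series Imp.edge, ?_, ?_⟩
    · simp only [map_add, map_mul, map_sub, aeval_X, map_one, map_zero]
      rw [pow_succ (-1 : ℂ) (s + 1), pow_succ (1 - Q) (s + 1)]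
      linear_combination (Q - 1) * h2
    · simp only [map_add, map_mul, map_sub, aeval_X, map_one, map_zero, map_ofNat]
      rw [pow_succ (-1 : ℂ) (s + 1), pow_succ (1 - Q) (s + 1)]
      linear_combination h1 + (Q - 2) * h2

lemma big_far {Q : ℂ} (hQ : Q.im ≠ 0) (h : 1 < ‖1 - Q‖) : Big Q := by
  set w := 1 - Q with hw
  have hwi : w.im ≠ 0 := by simpa [hw] using hQ
  obtain ⟨j, k, r, s, hr, hs, e⟩ := cone_pow (w := w) (fun h => hwi h.1)
  have hex : ∃ n : ℕ, 0 ≤ (w ^ (n + 1) * (1 - (starRingEnd ℂ) w)).re := by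
    by_contra hc
    push Not at hc
    have e2 : w ^ (0 + 1) * (1 - (starRingEnd ℂ) w) + r * (w ^ (j + 1) * (1 - (starRingEnd ℂ) w)) +
        s * (w ^ (k + 1) * (1 - (starRingEnd ℂ) w)) = 0 := by
      linear_combination w * (1 - (starRingEnd ℂ) w) * e
    have e3 := congrArg Complex.re e2
    rw [Complex.add_re, Complex.add_re, Complex.re_ofReal_mul, Complex.re_ofReal_mul,
      Complex.zero_re] at e3
    nlinarith [hc 0, hc j, hc k, mul_nonneg hr (neg_pos.2 (hc j)).le,
      mul_nonneg hs (neg_pos.2 (hc k)).le]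
  obtain ⟨n, hn⟩ := hex
  obtain ⟨A, B, hI, h1, h2⟩ := path_pair Q n
  refine ⟨A, B, hI, ?_⟩
  have hQ0 : 0 < ‖Q‖ := norm_pos_iff.2 (by rintro rfl; simp at hQ)
  refine lt_of_mul_lt_mul_left ?_ hQ0.le
  rw [← norm_mul, ← norm_mul, h1, h2, norm_mul, norm_mul, ← hw]
  refine mul_lt_mul_of_pos_left ?_ (by simp)
  have h3 : 1 < Complex.normSq w := by
    rw [Complex.normSq_eq_norm_sq]; nlinarith
  refine lt_of_pow_lt_pow_left₀ 2 (norm_nonneg _) ?_
  rw [← Complex.normSq_eq_norm_sq, ← Complex.normSq_eq_norm_sq]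
  generalize w ^ (n + 1) = z at hn ⊢
  simp [Complex.normSq_apply] at hn h3 ⊢
  nlinarith

lemma big_nonreal {Q : ℂ} (hQ : Q.im ≠ 0) : Big Q := by
  have h1 : ∀ (n : ℕ) (Q : ℂ), Q.im ≠ 0 → Big (Q - n) → Big Q := by
    intro n
    induction n with
    | zero => intro Q _ h; simpa using h
    | succ n ih =>
      intro Q hQ h
      refine big_step (by rintro rfl; simp at hQ) (ih _ (by simpa using hQ) ?_)
      convert h using 1
      push_cast; ring
  obtain ⟨n, hn⟩ := exists_nat_gt Q.re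
  refine h1 n Q hQ (big_far (by simpa using hQ) ?_)
  refine lt_of_lt_of_le ?_ (Complex.re_le_norm _)
  simp
  linarith

lemma real_big {q : ℝ} (h1 : 32 / 27 < q) (h2 : q ≤ 3 / 2) {Z : Set ℝ} (z0 : (0 : ℝ) ∈ Z)
    (zm : ∀ a ∈ Z, ∀ b ∈ Z, a * b ∈ Z)
    (zs : ∀ a ∈ Z, ∀ b ∈ Z, q - 2 + a + b ≠ 0 ∧ (q - 1 + a * b) / (q - 2 + a + b) ∈ Z) :
    ∃ y ∈ Z, 1 < |y| := by
  by_contra hc
  push Not at hc
  have hlt : ∀ y ∈ Z, y < 1 → q - 2 + y + y < 0 := by
    intro y hy hy1
    obtain ⟨a, b⟩ := zs y hy y hy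
    rcases lt_or_gt_of_ne a with h | h
    · exact h
    · have := (abs_le.1 (hc _ b)).2
      rw [div_le_one h] at this
      nlinarith
  have hle : ∀ y ∈ Z, y < 1 → (y + 1) ^ 2 ≤ 4 - 2 * q := by
    intro y hy hy1
    have := (abs_le.1 (hc _ (zs y hy y hy).2)).1
    rw [le_div_iff_of_neg (hlt y hy hy1)] at this
    nlinarith
  by_cases hB : ∃ y ∈ Z, 0 ≤ y ∧ y < 1 ∧ (y + 1) ^ 2 = 4 - 2 * q
  · obtain ⟨y, hy, y0, y1, e⟩ := hB
    have hm : (-1 : ℝ) ∈ Z := by
      convert (zs y hy y hy).2 using 1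
      rw [eq_div_iff (zs y hy y hy).1]
      nlinarith
    have hneg := hlt y hy y1
    rcases y0.eq_or_lt with rfl | y0'
    · have e' : q = 3 / 2 := by linarith
      subst e'
      have := hlt _ (zm _ hm _ (zs _ hm _ z0).2) (by norm_num)
      norm_num at this
    · have hd : 0 < 2 - q - y := by linarith
      have hu : (q - 1) / (2 - q - y) ∈ Z := by
        convert zm _ hm _ (zs _ hy _ z0).2 using 1
        have : q - 2 + y + 0 ≠ 0 := by linarith
        field_simp
        ring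
      have hu1 : (q - 1) / (2 - q - y) < 1 := by
        rw [div_lt_one hd]; nlinarith
      have hu2 : y < (q - 1) / (2 - q - y) := by
        rw [lt_div_iff₀ hd]
        have hy2 : y < 28 / 100 := by nlinarith
        have e1 : q = 2 - (y + 1) ^ 2 / 2 := by linarith
        subst e1
        nlinarith [mul_pos y0' y0', mul_pos y0' (mul_pos y0' y0')]
      have := hle _ hu hu1
      nlinarith
  · push Not at hB
    have step : ∀ n : ℕ, ∃ r : ℝ, n * (q - 32 / 27) ≤ r ∧ r < 1 ∧ r * r ∈ Z := by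
      intro n
      induction n with
      | zero => exact ⟨0, by simp, by norm_num, by simpa using z0⟩
      | succ n ih =>
        obtain ⟨r, r1, r2, r3⟩ := ih
        have r0 : 0 ≤ r := le_trans (mul_nonneg (Nat.cast_nonneg n) (by linarith)) r1
        have y1 : r * r < 1 := by nlinarith
        have hneg := hlt _ r3 y1
        have hd : 0 < 2 - q - 2 * (r * r) := by linarith
        have h3 := lt_of_le_of_ne (hle _ r3 y1) (hB _ r3 (mul_self_nonneg r) y1)
        refine ⟨(q - 1 + r * r * (r * r)) / (2 - q - 2 * (r * r)), ?_, ?_, ?_⟩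
        · refine le_trans (b := r + (q - 32 / 27)) (by push_cast; linarith) ?_
          rw [le_div_iff₀ hd]
          have a1 : 0 ≤ (r + 1) * ((r - 1 / 3) ^ 2 * (r + 5 / 3)) := by positivity
          have a2 : 0 ≤ (q - 32 / 27) * (r + 1 - (2 - q - 2 * (r * r))) :=
            mul_nonneg (by linarith) (by nlinarith)
          nlinarith
        · rw [div_lt_one hd]; nlinarith
        · convert zm _ (zs _ r3 _ r3).2 _ (zs _ r3 _ r3).2 using 1
          have : q - 2 + r * r + r * r = -(2 - q - 2 * (r * r)) := by ring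
          rw [this, div_neg, neg_mul_neg]
    obtain ⟨n, hn⟩ := exists_nat_gt (1 / (q - 32 / 27))
    obtain ⟨r, r1, r2, -⟩ := step n
    rw [div_lt_iff₀ (by linarith)] at hn
    linarith

lemma join_pair (n : ℕ) : ∃ A B, Imp A B ∧ A * (X - (n + 1 : ℤ[X])) = B * (X - 1) := by
  induction n with
  | zero => exact ⟨_, _, Imp.one, by simp⟩
  | succ n ih =>
    obtain ⟨A, B, hI, e⟩ := ih
    refine ⟨_, _, hI.join, ?_⟩
    have := congrArg (fun p : ℤ[X] => p.comp (X - 1)) e
    simp only [mul_comp, sub_comp, X_comp, add_comp, natCast_comp, one_comp] at this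
    push_cast
    linear_combination (X - 1) * this

lemma mem_of_inv {K : Type} [Field K] (P : Subring K) {t : K} (ht : IsIntegral ℤ t) (h0 : t ≠ 0)
    (hP : t⁻¹ ∈ P) : t ∈ P := by
  obtain ⟨p, hp, e⟩ := ht
  rw [← aeval_def, aeval_eq_sum_range, Finset.sum_range_succ] at e
  have hd : p.natDegree ≠ 0 := by
    intro h
    rw [h] at e
    have := hp.coeff_natDegree
    rw [h] at this
    simp [this] at e
  obtain ⟨d, hd⟩ := Nat.exists_eq_succ_of_ne_zero hd
  rw [hp.coeff_natDegree, one_smul, hd] at e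
  have e2 : t = -∑ i ∈ Finset.range d.succ, p.coeff i • t⁻¹ ^ (d - i) := by
    have h1 : ∑ i ∈ Finset.range d.succ, p.coeff i • t⁻¹ ^ (d - i) =
        (∑ i ∈ Finset.range d.succ, p.coeff i • t ^ i) * t⁻¹ ^ d := by
      rw [Finset.sum_mul]
      refine Finset.sum_congr rfl fun i hi => ?_
      have hi' : i ≤ d := Nat.lt_succ_iff.1 (Finset.mem_range.1 hi)
      obtain ⟨k, rfl⟩ := Nat.exists_eq_add_of_le hi'
      rw [smul_mul_assoc, Nat.add_sub_cancel_left, pow_add, ← mul_assoc, ← mul_pow,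
        mul_inv_cancel₀ h0, one_pow, one_mul]
    rw [h1, eq_neg_of_add_eq_zero_left e, pow_succ']
    rw [neg_mul, neg_neg, mul_assoc, ← mul_pow, mul_inv_cancel₀ h0, one_pow, mul_one]
  rw [e2]
  exact neg_mem (sum_mem fun i _ => zsmul_mem (pow_mem hP _) _)

theorem suff_aux {K : Type} [Field K] [CharZero K] [FiniteDimensional ℚ K] (f : K →+* ℂ) (x : K)
    (hint : IsIntegral ℤ x) (hgen : Algebra.adjoin ℚ {x} = ⊤)
    (hσ : ∀ σ : K →ₐ[ℚ] ℂ, (σ x).im = 0 → σ x = 0 ∨ σ x = 1 ∨ 32 / 27 < (σ x).re) :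
    IsRoot (f x) := by
  by_contra hne
  have hB : ∀ {A B}, Imp A B → x * (x - 1) * aeval x B ≠ 0 := by
    intro A B h e
    refine hne (h.root_snd ?_)
    have := congrArg f e
    simpa only [map_mul, map_sub, map_one, map_zero, hom_aeval] using this
  have hB' : ∀ {A B}, Imp A B → aeval x B ≠ 0 := fun h => right_ne_zero_of_mul (hB h)
  have hx0 : x ≠ 0 := left_ne_zero_of_mul (left_ne_zero_of_mul (hB Imp.one))
  have hx1 : x - 1 ≠ 0 := right_ne_zero_of_mul (left_ne_zero_of_mul (hB Imp.one))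
  let Y : Submonoid K :=
    { carrier := {y | ∃ A B, Imp A B ∧ aeval x A = y * aeval x B}
      one_mem' := ⟨_, _, Imp.one, by simp⟩
      mul_mem' := by
        rintro a b ⟨A, B, h, e⟩ ⟨A', B', h', e'⟩
        exact ⟨_, _, h.mul h', by rw [map_mul, map_mul, e, e']; ring⟩ }
  have hY : ∀ {A B}, Imp A B → aeval x A / aeval x B ∈ Y := fun h =>
    ⟨_, _, h, (div_mul_cancel₀ _ (hB' h)).symm⟩
  have h0 : (0 : K) ∈ Y := ⟨_, _, Imp.edge, by simp⟩
  have hser : ∀ a ∈ Y, ∀ b ∈ Y, x - 2 + a + b ≠ 0 ∧ (x - 1 + a * b) / (x - 2 + a + b) ∈ Y := by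
    rintro a ⟨A, B, h, e⟩ b ⟨A', B', h', e'⟩
    have h3 := hB' (h.series h')
    have e3 : aeval x (A * B' + B * A' + (X - 2) * (B * B')) =
        (x - 2 + a + b) * (aeval x B * aeval x B') := by
      simp only [map_add, map_mul, map_sub, aeval_X, map_ofNat, e, e']; ring
    rw [e3] at h3
    refine ⟨left_ne_zero_of_mul h3, _, _, h.series h', ?_⟩
    rw [e3, ← mul_assoc (_ / _), div_mul_cancel₀ _ (left_ne_zero_of_mul h3)]
    simp only [map_add, map_mul, map_sub, aeval_X, map_one, e, e']; ring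
  have hjoin : ∀ n : ℕ, ∃ y ∈ Y, y * (x - (n + 1)) = x - 1 := by
    intro n
    obtain ⟨A, B, h, e⟩ := join_pair n
    refine ⟨_, hY h, ?_⟩
    have := congrArg (aeval x) e
    simp only [map_mul, map_sub, map_add, aeval_X, map_one, map_natCast] at this
    have h3 := hB' h
    field_simp
    linear_combination this
  obtain ⟨y0, hy0, e0⟩ := hjoin 1
  have hxP : x ∈ Subring.closure (Y : Set K) := by
    have e1 : (y0 - 1) * (x - 2) = 1 := by push_cast at e0; linear_combination e0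
    have h2 : x - 2 ∈ Subring.closure (Y : Set K) := by
      refine mem_of_inv _ (hint.sub (by exact_mod_cast isIntegral_natCast 2))
        (right_ne_zero_of_mul_eq_one e1) ?_
      rw [← eq_inv_of_mul_eq_one_left e1]
      exact sub_mem (Subring.subset_closure hy0) (one_mem _)
    simpa using add_mem h2 (natCast_mem _ 2)
  have hsp : Submodule.span ℚ (Y : Set K) = ⊤ := by
    have h1 : Subalgebra.toSubmodule (Algebra.adjoin ℚ (Y : Set K)) = Submodule.span ℚ Y := by
      rw [Algebra.adjoin_eq_span, Submonoid.closure_eq]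
    have h2 : Algebra.adjoin ℚ (Y : Set K) = ⊤ := by
      rw [eq_top_iff, ← hgen, Algebra.adjoin_le_iff, Set.singleton_subset_iff]
      exact (Subring.closure_le (t := (Algebra.adjoin ℚ (Y : Set K)).toSubring)).2
        Algebra.subset_adjoin hxP
    rw [← h1, h2]
    rfl
  have hreal : ∀ σ : K →ₐ[ℚ] ℂ, (σ x).im = 0 → 32 / 27 < (σ x).re := by
    intro σ h
    rcases hσ σ h with h' | h' | h'
    · exact absurd ((map_eq_zero σ).1 h') hx0
    · exact absurd ((map_eq_zero σ).1 (by rw [map_sub, map_one, h', sub_self])) hx1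
    · exact h'
  have h1 : ∀ σ : K →ₐ[ℚ] ℂ, ∃ y ∈ Y, 1 < ‖σ y‖ := by
    intro σ
    by_cases him : (σ x).im = 0
    · obtain ⟨q, hq⟩ : ∃ q : ℝ, σ x = q := ⟨(σ x).re, Complex.ext (by simp) (by simp [him])⟩
      have h3 : 32 / 27 < q := by simpa [hq] using hreal σ him
      by_cases h4 : q ≤ 3 / 2
      · obtain ⟨r, ⟨y, hy, e⟩, hr⟩ := real_big h3 h4 (Z := {r : ℝ | ∃ y ∈ Y, σ y = r})
          ⟨0, h0, by simp⟩
          (by
            rintro a ⟨y, hy, e⟩ b ⟨y', hy', e'⟩
            exact ⟨_, Y.mul_mem hy hy', by simp [e, e']⟩)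
          (by
            rintro a ⟨y, hy, e⟩ b ⟨y', hy', e'⟩
            obtain ⟨s1, s2⟩ := hser y hy y' hy'
            refine ⟨fun e3 => s1 ((map_eq_zero σ).1 ?_), _, s2, by simp [e, e', hq, map_ofNat]⟩
            have := congrArg (fun r : ℝ => (r : ℂ)) e3
            simpa [e, e', hq, map_ofNat] using this)
        exact ⟨y, hy, by simpa [e] using hr⟩
      · refine ⟨y0, hy0, ?_⟩
        have e1 := congrArg (fun z => ‖σ z‖) e0
        simp only [map_mul, map_sub, map_add, map_one, Nat.cast_one, hq, norm_mul] at e1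
        have e2 : ‖(q : ℂ) - (1 + 1)‖ = |q - 2| := by
          rw [← Real.norm_eq_abs, ← Complex.norm_real]; congr 1; push_cast; ring
        have e3 : ‖(q : ℂ) - 1‖ = q - 1 := by
          rw [← abs_of_pos (show 0 < q - 1 by linarith), ← Real.norm_eq_abs, ← Complex.norm_real]
          congr 1; push_cast; ring
        rw [e2, e3] at e1
        have h5 : |q - 2| < q - 1 := abs_lt.2 ⟨by linarith, by linarith⟩
        by_contra h6
        nlinarith [abs_nonneg (q - 2)]
    · obtain ⟨A, B, h, hlt⟩ := big_nonreal him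
      refine ⟨_, hY h, ?_⟩
      have a1 : σ (aeval x A) = aeval (σ x) A := hom_aeval (σ : K →+* ℂ) x A
      have a2 : σ (aeval x B) = aeval (σ x) B := hom_aeval (σ : K →+* ℂ) x B
      have a3 : 0 < ‖aeval (σ x) B‖ := by
        rw [← a2]; exact norm_pos_iff.2 ((map_ne_zero σ).2 (hB' h))
      rw [map_div₀, norm_div, a1, a2, one_lt_div a3]
      exact hlt
  have h2 : ∀ σ : K →ₐ[ℚ] ℂ, ∃ y ∈ Y, ¬ ((σ y).im = 0 ∧ 0 ≤ (σ y).re) := by
    intro σ
    obtain ⟨n, hn⟩ := exists_nat_gt |(σ x).re|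
    obtain ⟨y, hy, e⟩ := hjoin (n + 1)
    refine ⟨y, hy, fun h => ?_⟩
    have e1 := congrArg σ e
    simp only [map_mul, map_sub, map_add, map_one, map_natCast] at e1
    have e2 := congrArg Complex.re e1
    have e3 := congrArg Complex.im e1
    simp [h.1] at e2 e3
    have hn' := (abs_lt.1 hn).2
    by_cases him : (σ x).im = 0
    · nlinarith [hreal σ him, h.2]
    · have : (σ y).re = 1 := by
        by_contra h7
        exact him (by
          have : ((σ y).re - 1) * (σ x).im = 0 := by linarith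
          exact (mul_eq_zero.1 this).resolve_left (sub_ne_zero.2 h7))
      rw [this] at e2
      have : (0 : ℝ) ≤ n := Nat.cast_nonneg n
      linarith
  obtain ⟨k, y, hy, e⟩ := alg h0 hsp h1 h2 (neg_mem hxP)
  choose A B hI hAB using hy
  exact hne (clique A B hI f x y hAB (by rw [← e, add_neg_cancel]))

open IntermediateField in
theorem suff {α : ℂ} (hint : IsIntegral ℤ α)
    (h : ∀ β : ℝ, aeval (β : ℂ) (minpoly ℚ α) = 0 → β = 0 ∨ β = 1 ∨ 32 / 27 < β) : IsRoot α := by
  have hQ : IsIntegral ℚ α := hint.tower_top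
  have := adjoin.finiteDimensional hQ
  have := suff_aux (K := ℚ⟮α⟯) (algebraMap _ ℂ) (AdjoinSimple.gen ℚ α) ?_ ?_ ?_
  · simpa using this
  · rw [← isIntegral_algebraMap_iff (algebraMap ℚ⟮α⟯ ℂ).injective]
    simpa using hint
  · exact (adjoin.powerBasis hQ).adjoin_gen_eq_top
  · intro σ him
    obtain ⟨q, hq⟩ : ∃ q : ℝ, σ (AdjoinSimple.gen ℚ α) = q :=
      ⟨(σ (AdjoinSimple.gen ℚ α)).re, Complex.ext (by simp) (by simp [him])⟩
    have h1 : aeval (q : ℂ) (minpoly ℚ α) = 0 := by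
      rw [← hq, aeval_algHom_apply]
      exact (map_eq_zero σ).2 (aeval_gen_minpoly ℚ α)
    rcases h q h1 with h' | h' | h'
    · exact Or.inl (by rw [hq, h']; simp)
    · exact Or.inr (Or.inl (by rw [hq, h']; simp))
    · exact Or.inr (Or.inr (by rw [hq]; simpa using h'))

end Pool.Agent.P.MP_f55c5e_co.Ch
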